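import Pool.Agent.Lib.MP_562b47_mp.GD.Mul

/-!
MP_562b47, slabs: the gadget on `ℤ^d × F`, `F` a finite connected graph (the cross-section of a slab).
Definitions and linear algebra.  The case where `F` is a point is `GD`.  The centre of the gadget is
`(1, o)`, `o : F`.
-/

open Finset

set_option linter.unusedSectionVars false

namespace Pool.Agent.Lib.MP_562b47_mp.SX

/-- a connected graph: the cross-section of the slab -/
class Thin (F : Type) where
  B : F → F → Prop
  dec : DecidableRel B
  symm : ∀ {f g}, B f g → B g f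
  irr : ∀ f, ¬ B f f
  conn : ∀ S : Set F, S.Nonempty → (∀ f ∈ S, ∀ g, B f g → g ∈ S) → ∀ f, f ∈ S

instance {F : Type} [Thin F] : DecidableRel (Thin.B (F := F)) := Thin.dec

noncomputable section

variable {d : ℕ} {F : Type} [Fintype F] [DecidableEq F] [Thin F]

/-- the sites -/
abbrev St (d : ℕ) (F : Type) : Type := (Fin d → ℤ) × F

/-- the centre -/
def ce (d : ℕ) (o : F) : St d F := (1, o)

/-- sum over the neighbours in the cross-section -/
def tb {R : Type*} [AddCommMonoid R] (u : F → R) (f : F) : R := ∑ g, if Thin.B f g then u g else 0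

/-- sum over all neighbours -/
def nbs {R : Type*} [AddCommMonoid R] (u : St d F → R) (x : St d F) : R :=
  GD.nbs (fun y => u (y, x.2)) x.1 + tb (fun g => u (x.1, g)) x.2

/-- neighbours -/
def adj (x y : St d F) : Prop := (GD.adj x.1 y.1 ∧ x.2 = y.2) ∨ (x.1 = y.1 ∧ Thin.B x.2 y.2)

instance : DecidableRel (adj (d := d) (F := F)) := fun x y => by unfold adj; infer_instance

/-- the sites of a cell -/
def cl (d : ℕ) (F : Type) [Fintype F] (b : ℤ) : Finset (St d F) := GD.cl d b ×ˢ univ

/-- the index set of the minor -/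
def ci (d : ℕ) (b : ℤ) (o : F) : Finset (St d F) := (cl d F b).erase (ce d o)

/-- the effective diagonal of the cell -/
def Vp (p : St d F → ℝ) (x : St d F) : ℝ := nbs p x / p x

/-- a profile -/
structure Prof (d : ℕ) (F : Type) (b : ℤ) (z : ℝ) where
  row : F → GD.Prof d b z

/-- its values -/
def Prof.p {b : ℤ} {z : ℝ} (P : Prof d F b z) : St d F → ℝ := fun x => (P.row x.2).p x.1

/-- the cell estimate with constant `C` -/
def CellEst (b : ℤ) (o : F) (p : St d F → ℝ) (C : ℝ) : Prop :=
  ∀ (v : St d F → ℂ) (G : ℝ), 0 ≤ G → (∀ x, x ∉ cl d F b → v x = 0) →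
    (∀ x ∈ cl d F b, x ≠ ce d o → ‖(Vp p x : ℂ) * v x - nbs v x‖ ≤ G) →
    ∀ x ∈ cl d F b, ‖v x - v (ce d o) / (p (ce d o) : ℂ) * (p x : ℂ)‖ ≤ C * G

/-- `diag (nbs q) - diag q * Adj` on the cell without the centre -/
def Mt {R : Type*} [CommRing R] (b : ℤ) (o : F) (q : St d F → R) :
    Matrix (ci d b o) (ci d b o) R :=
  Matrix.of fun x y => (if x = y then nbs q x else 0) - if adj (x : St d F) y then q x else 0

/-- nodes -/
def node (b : ℤ) (x : St d F) : Prop := GD.node b x.1

instance (b : ℤ) : DecidablePred (node (d := d) (F := F) b) := fun x => by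
  unfold node; infer_instance

/-- position in the cell -/
def rr (b : ℤ) (x : St d F) : St d F := (GD.rr b x.1, x.2)

/-- the exact solution -/
def ww (b : ℤ) (z : ℝ) (p : St d F → ℝ) (x : St d F) : ℝ :=
  GD.ww b z (fun y => p (y, x.2)) x.1

/-- the effective diagonal off the nodes -/
def Ve (b : ℤ) (p : St d F → ℝ) (x : St d F) : ℝ := Vp p (rr b x)

/-- the inner block with the centre -/
def qi (d : ℕ) (F : Type) [Fintype F] (m : ℤ) : Finset (St d F) := GD.qi d m ×ˢ univ

/-- the inner block without the centre -/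
def inn (d : ℕ) (m : ℤ) (o : F) : Finset (St d F) := (qi d F m).erase (ce d o)

/-- the block matrix with effective diagonal `W` -/
def KM {R : Type*} [CommRing R] (m : ℤ) (o : F) (W : St d F → R) :
    Matrix (inn d m o) (inn d m o) R :=
  Matrix.of fun x y => (if x = y then W x else 0) - if adj (x : St d F) y then 1 else 0

open Classical in
/-- its inverse, extended by zero -/
def KI {R : Type*} [CommRing R] (m : ℤ) (o : F) (W : St d F → R) (x y : St d F) : R :=
  if hx : x ∈ inn d m o then (if hy : y ∈ inn d m o then (KM m o W)⁻¹ ⟨x, hx⟩ ⟨y, hy⟩ else 0) else 0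

end

variable {d : ℕ} {F : Type} [Fintype F] [DecidableEq F] [Thin F]

/-! ### Membership -/

omit [DecidableEq F] [Thin F] in
theorem mem_cl {b : ℤ} {x : St d F} : x ∈ cl d F b ↔ x.1 ∈ GD.cl d b := by
  simp [cl]

omit [Thin F] in
theorem mem_ci {b : ℤ} {o : F} {x : St d F} : x ∈ ci d b o ↔ x ≠ ce d o ∧ x.1 ∈ GD.cl d b := by
  simp [ci, mem_cl]

omit [DecidableEq F] [Thin F] in
theorem mem_qi {m : ℤ} {x : St d F} : x ∈ qi d F m ↔ ∀ i, |x.1 i| < m := by
  simp only [qi, mem_product, mem_univ, and_true]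
  exact GD.mem_qi

omit [Thin F] in
theorem mem_inn {m : ℤ} {o : F} {x : St d F} :
    x ∈ inn d m o ↔ x ≠ ce d o ∧ ∀ i, |x.1 i| < m := by
  simp [inn, mem_qi]

omit [DecidableEq F] [Thin F] in
theorem card_qi_le {m : ℤ} (hm : 0 ≤ m) :
    ((qi d F m).card : ℝ) ≤ Fintype.card F * (2 * (m : ℝ)) ^ d := by
  unfold qi
  rw [card_product, card_univ]
  push_cast
  rw [mul_comm]
  exact mul_le_mul_of_nonneg_left (GD.card_qi_le hm) (Nat.cast_nonneg _)

omit [Thin F] in
theorem card_inn_le {m : ℤ} (hm : 0 ≤ m) (o : F) :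
    ((inn d m o).card : ℝ) ≤ Fintype.card F * (2 * (m : ℝ)) ^ d := by
  refine le_trans ?_ (card_qi_le hm)
  exact_mod_cast card_le_card (erase_subset _ _)

/-! ### Neighbours -/

theorem gadj_irrefl {x : Fin d → ℤ} : ¬ GD.adj x x := by
  rintro ⟨i, h | h⟩
  · have := congrFun h i
    rw [GD.sh_same] at this
    omega
  · have := congrFun h i
    rw [GD.sh_same] at this
    omega

omit [Fintype F] [DecidableEq F] in
theorem adj_symm {x y : St d F} (h : adj x y) : adj y x := by
  rcases h with ⟨h1, h2⟩ | ⟨h1, h2⟩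
  · exact Or.inl ⟨GD.adj_symm h1, h2.symm⟩
  · exact Or.inr ⟨h1.symm, Thin.symm h2⟩

omit [Fintype F] [DecidableEq F] in
theorem adj_comm {x y : St d F} : adj x y ↔ adj y x := ⟨adj_symm, adj_symm⟩

omit [Fintype F] [DecidableEq F] in
theorem adj_irrefl {x : St d F} : ¬ adj x x := by
  rintro (⟨h1, -⟩ | ⟨-, h2⟩)
  · exact gadj_irrefl h1
  · exact Thin.irr _ h2

/-- values at the neighbours determine `nbs` -/
theorem nbs_congr {R : Type*} [AddCommMonoid R] {u v : St d F → R} {x : St d F}
    (h : ∀ y, adj x y → u y = v y) : nbs u x = nbs v x := by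
  unfold nbs
  congr 1
  · unfold GD.nbs
    refine Finset.sum_congr rfl fun i _ => ?_
    have h1 := h (GD.sh x.1 i 1, x.2) (Or.inl ⟨⟨i, Or.inl rfl⟩, rfl⟩)
    have h2 := h (GD.sh x.1 i (-1), x.2) (Or.inl ⟨⟨i, Or.inr rfl⟩, rfl⟩)
    simp only
    rw [h1, h2]
  · unfold tb
    refine Finset.sum_congr rfl fun g _ => ?_
    split_ifs with hg
    · exact h (x.1, g) (Or.inr ⟨rfl, hg⟩)
    · rfl

theorem nbs_add {R : Type*} [CommRing R] (u v : St d F → R) (x : St d F) :
    nbs (fun y => u y + v y) x = nbs u x + nbs v x := by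
  unfold nbs GD.nbs tb
  have h1 : ∑ g, (if Thin.B x.2 g then u (x.1, g) + v (x.1, g) else 0) =
      ∑ g, (if Thin.B x.2 g then u (x.1, g) else 0) +
      ∑ g, (if Thin.B x.2 g then v (x.1, g) else 0) := by
    rw [← Finset.sum_add_distrib]
    refine Finset.sum_congr rfl fun g _ => ?_
    split_ifs <;> simp
  have h2 : ∑ i, (u (GD.sh x.1 i 1, x.2) + v (GD.sh x.1 i 1, x.2) +
      (u (GD.sh x.1 i (-1), x.2) + v (GD.sh x.1 i (-1), x.2))) =
      ∑ i, (u (GD.sh x.1 i 1, x.2) + u (GD.sh x.1 i (-1), x.2)) +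
      ∑ i, (v (GD.sh x.1 i 1, x.2) + v (GD.sh x.1 i (-1), x.2)) := by
    rw [← Finset.sum_add_distrib]
    refine Finset.sum_congr rfl fun i _ => ?_
    ring
  rw [h1, h2]
  ring

theorem nbs_mul {R : Type*} [CommRing R] (a : R) (u : St d F → R) (x : St d F) :
    nbs (fun y => a * u y) x = a * nbs u x := by
  unfold nbs GD.nbs tb
  rw [mul_add, Finset.mul_sum, Finset.mul_sum]
  congr 1
  · refine Finset.sum_congr rfl fun i _ => ?_
    ring
  · refine Finset.sum_congr rfl fun g _ => ?_
    split_ifs <;> simp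

theorem nbs_sub {R : Type*} [CommRing R] (u v : St d F → R) (x : St d F) :
    nbs (fun y => u y - v y) x = nbs u x - nbs v x := by
  have h := nbs_add u (fun y => (-1) * v y) x
  rw [nbs_mul] at h
  have h1 : (fun y => u y - v y) = fun y => u y + (-1) * v y := by
    funext y; ring
  rw [h1, h]
  ring

theorem nbs_lin {R : Type*} [CommRing R] (a e : R) (u v : St d F → R) (x : St d F) :
    nbs (fun y => a * u y + e * v y) x = a * nbs u x + e * nbs v x := by
  rw [nbs_add (fun y => a * u y) (fun y => e * v y), nbs_mul, nbs_mul]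

theorem nbs_map {R S : Type*} [CommRing R] [CommRing S] (f : R →+* S) (u : St d F → R)
    (x : St d F) : nbs (fun y => f (u y)) x = f (nbs u x) := by
  unfold nbs GD.nbs tb
  rw [map_add, map_sum, map_sum]
  congr 1
  · refine Finset.sum_congr rfl fun i _ => ?_
    rw [map_add]
  · refine Finset.sum_congr rfl fun g _ => ?_
    split_ifs <;> simp

/-- number of neighbours -/
noncomputable def dn (d : ℕ) (F : Type) [Fintype F] : ℝ := 2 * d + Fintype.card F

omit [DecidableEq F] [Thin F] in
theorem dn_nonneg : 0 ≤ dn d F := by unfold dn; positivity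

omit [DecidableEq F] [Thin F] in
theorem dn_pos [Nonempty F] : 0 < dn d F := by
  have : 0 < Fintype.card F := Fintype.card_pos
  unfold dn
  positivity

omit [DecidableEq F] [Thin F] in
theorem one_le_dn [Nonempty F] : 1 ≤ dn d F := by
  have h : 0 < Fintype.card F := Fintype.card_pos
  have h1 : (1 : ℝ) ≤ Fintype.card F := by exact_mod_cast h
  have h2 : (0 : ℝ) ≤ d := Nat.cast_nonneg d
  unfold dn
  linarith

theorem norm_nbs_le {E : Type*} [NormedAddCommGroup E] (f : St d F → E) (x : St d F) {K : ℝ}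
    (hK : 0 ≤ K) (h : ∀ y, adj x y → ‖f y‖ ≤ K) : ‖nbs f x‖ ≤ dn d F * K := by
  unfold nbs
  refine (norm_add_le _ _).trans ?_
  have h1 : ‖GD.nbs (fun y => f (y, x.2)) x.1‖ ≤ 2 * d * K := by
    unfold GD.nbs
    calc ‖∑ i, (f (GD.sh x.1 i 1, x.2) + f (GD.sh x.1 i (-1), x.2))‖
        ≤ ∑ _i : Fin d, (K + K) := by
          refine norm_sum_le_of_le _ fun i _ => ?_
          refine (norm_add_le _ _).trans (add_le_add ?_ ?_)
          · exact h _ (Or.inl ⟨⟨i, Or.inl rfl⟩, rfl⟩)
          · exact h _ (Or.inl ⟨⟨i, Or.inr rfl⟩, rfl⟩)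
      _ = 2 * d * K := by
          rw [Finset.sum_const, nsmul_eq_mul, Finset.card_univ, Fintype.card_fin]
          ring
  have h2 : ‖tb (fun g => f (x.1, g)) x.2‖ ≤ Fintype.card F * K := by
    unfold tb
    calc ‖∑ g, (if Thin.B x.2 g then f (x.1, g) else 0)‖
        ≤ ∑ _g : F, K := by
          refine norm_sum_le_of_le _ fun g _ => ?_
          split_ifs with hg
          · exact h _ (Or.inr ⟨rfl, hg⟩)
          · rw [norm_zero]; exact hK
      _ = Fintype.card F * K := by
          rw [Finset.sum_const, nsmul_eq_mul, Finset.card_univ]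
  unfold dn
  linarith

/-- summation over the neighbours in a finite set -/
theorem sum_adj {R : Type*} [CommRing R] (T : Finset (St d F)) (v : St d F → R)
    (hv : ∀ x, x ∉ T → v x = 0) (x : St d F) (c : R) :
    ∑ y ∈ T, (if adj x y then c else 0) * v y = c * nbs v x := by
  classical
  set T1 : Finset (Fin d → ℤ) := T.image Prod.fst with hT1
  have hT : T ⊆ T1 ×ˢ (univ : Finset F) := by
    intro y hy
    rw [mem_product]
    exact ⟨mem_image_of_mem _ hy, mem_univ _⟩
  have hv1 : ∀ y g, y ∉ T1 → v (y, g) = 0 := by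
    intro y g hy
    apply hv
    intro h
    exact hy (mem_image.mpr ⟨_, h, rfl⟩)
  have h1 : ∑ y ∈ T, (if adj x y then c else 0) * v y =
      ∑ y ∈ T1 ×ˢ (univ : Finset F), (if adj x y then c else 0) * v y :=
    Finset.sum_subset hT fun y _ hy => by rw [hv y hy, mul_zero]
  have h2 : ∀ y ∈ T1 ×ˢ (univ : Finset F), (if adj x y then c else 0) * v y =
      (if x.2 = y.2 then (if GD.adj x.1 y.1 then c else 0) * v (y.1, x.2) else 0) +
      (if x.1 = y.1 then c * (if Thin.B x.2 y.2 then v (x.1, y.2) else 0) else 0) := by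
    intro y _
    obtain ⟨y1, g⟩ := y
    unfold adj
    by_cases e1 : x.1 = y1
    · have e2 : ¬ GD.adj x.1 y1 := by rw [← e1]; exact gadj_irrefl
      have e4 : v (x.1, g) = v (y1, g) := by rw [e1]
      by_cases e5 : Thin.B x.2 g
      · rw [if_pos (Or.inr ⟨e1, e5⟩), if_neg e2, if_pos e1, if_pos e5, zero_mul, ite_self,
          zero_add, e4]
      · rw [if_neg (fun h => h.elim (fun h => e2 h.1) (fun h => e5 h.2)), if_neg e2, if_pos e1,
          if_neg e5, zero_mul, zero_mul, ite_self, zero_add, mul_zero]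
    · rw [if_neg e1, add_zero]
      by_cases e3 : x.2 = g
      · have e4 : v (y1, x.2) = v (y1, g) := by rw [e3]
        rw [if_pos e3, e4]
        congr 1
        simp [e1, e3]
      · rw [if_neg e3, if_neg (fun h => h.elim (fun h => e3 h.2) (fun h => e1 h.1)), zero_mul]
  rw [h1, Finset.sum_congr rfl h2, Finset.sum_add_distrib, Finset.sum_product,
    Finset.sum_product]
  unfold nbs
  rw [mul_add]
  congr 1
  · have h3 : ∀ y ∈ T1, ∑ g : F, (if x.2 = g then (if GD.adj x.1 y then c else 0) * v (y, x.2)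
        else 0) = (if GD.adj x.1 y then c else 0) * v (y, x.2) := by
      intro y _
      rw [Finset.sum_ite_eq, if_pos (mem_univ _)]
    rw [Finset.sum_congr rfl h3]
    exact GD.sum_adj T1 (fun y => v (y, x.2)) (fun y hy => hv1 y _ hy) x.1 c
  · unfold tb
    by_cases hx : x.1 ∈ T1
    · rw [Finset.sum_eq_single x.1]
      · simp only [if_true]
        rw [← Finset.mul_sum]
      · intro y _ hy
        refine Finset.sum_eq_zero fun g _ => ?_
        rw [if_neg (fun h => hy h.symm)]
      · intro h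
        exact absurd hx h
    · have h4 : ∑ g, (if Thin.B x.2 g then v (x.1, g) else 0) = 0 :=
        Finset.sum_eq_zero fun g _ => by rw [hv1 _ _ hx, ite_self]
      rw [h4, mul_zero]
      refine Finset.sum_eq_zero fun y hy => Finset.sum_eq_zero fun g _ => ?_
      rw [if_neg]
      intro h
      exact hx (h ▸ hy)

/-! ### The matrices -/

theorem Mt_mulVec {R : Type*} [CommRing R] (b : ℤ) (o : F) (q v : St d F → R)
    (hv : ∀ x, x ∉ ci d b o → v x = 0) (x : ci d b o) :
    (Mt b o q).mulVec (fun y => v y) x = nbs q x * v x - q x * nbs v x := by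
  have h1 : (Mt b o q).mulVec (fun y => v y) x =
      ∑ y : ci d b o,
        ((if x = y then nbs q x else 0) * v y -
          (if adj (x : St d F) y then q x else 0) * v y) := by
    refine Finset.sum_congr rfl fun y _ => ?_
    rw [← sub_mul]
    rfl
  rw [h1, Finset.sum_sub_distrib]
  congr 1
  · rw [Finset.sum_eq_single x]
    · rw [if_pos rfl]
    · intro y _ hy
      rw [if_neg (fun h => hy h.symm), zero_mul]
    · intro h
      exact absurd (Finset.mem_univ x) h
  · rw [← sum_adj (ci d b o) v hv x (q x)]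
    exact Finset.sum_coe_sort (ci d b o) (fun y => (if adj (x : St d F) y then q x else 0) * v y)

theorem KM_mulVec {R : Type*} [CommRing R] (m : ℤ) (o : F) (W v : St d F → R)
    (hv : ∀ x, x ∉ inn d m o → v x = 0) (x : inn d m o) :
    (KM m o W).mulVec (fun y => v y) x = W x * v x - nbs v x := by
  have h1 : (KM m o W).mulVec (fun y => v y) x =
      ∑ y : inn d m o,
        ((if x = y then W x else 0) * v y - (if adj (x : St d F) y then 1 else 0) * v y) := by
    refine Finset.sum_congr rfl fun y _ => ?_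
    rw [← sub_mul]
    rfl
  rw [h1, Finset.sum_sub_distrib]
  congr 1
  · rw [Finset.sum_eq_single x]
    · rw [if_pos rfl]
    · intro y _ hy
      rw [if_neg (fun h => hy h.symm), zero_mul]
    · intro h
      exact absurd (Finset.mem_univ x) h
  · rw [← one_mul (nbs v x), ← sum_adj (inn d m o) v hv x 1]
    exact Finset.sum_coe_sort (inn d m o)
      (fun y => (if adj (x : St d F) y then 1 else 0) * v y)

/-- the imaginary part of the quadratic form -/
theorem energy (T : Finset (St d F)) (W u : St d F → ℂ) (hu : ∀ x, x ∉ T → u x = 0) :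
    (∑ x ∈ T, (starRingEnd ℂ) (u x) * (W x * u x - nbs u x)).im =
      ∑ x ∈ T, (W x).im * ‖u x‖ ^ 2 := by
  set Q : ℂ := ∑ x ∈ T, (starRingEnd ℂ) (u x) * nbs u x with hQ
  have hQ2 : Q = ∑ x ∈ T, ∑ y ∈ T, (if adj x y then (starRingEnd ℂ) (u x) * u y else 0) := by
    rw [hQ]
    refine Finset.sum_congr rfl fun x _ => ?_
    rw [← one_mul (nbs u x), ← sum_adj T u hu x 1, Finset.mul_sum]
    refine Finset.sum_congr rfl fun y _ => ?_
    split_ifs <;> simp
  have hQ3 : (starRingEnd ℂ) Q = Q := by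
    rw [hQ2, map_sum]
    simp_rw [map_sum]
    rw [Finset.sum_comm]
    refine Finset.sum_congr rfl fun x _ => Finset.sum_congr rfl fun y _ => ?_
    by_cases h : adj x y
    · rw [if_pos h, if_pos (adj_symm h), map_mul, Complex.conj_conj, mul_comm]
    · rw [if_neg h, if_neg fun h' => h (adj_symm h'), map_zero]
  have hQ4 : Q.im = 0 := Complex.conj_eq_iff_im.mp hQ3
  have h1 : ∑ x ∈ T, (starRingEnd ℂ) (u x) * (W x * u x - nbs u x) =
      ∑ x ∈ T, W x * ((‖u x‖ ^ 2 : ℝ) : ℂ) - Q := by
    rw [hQ, ← Finset.sum_sub_distrib]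
    refine Finset.sum_congr rfl fun x _ => ?_
    have h3 : (starRingEnd ℂ) (u x) * u x = ((‖u x‖ ^ 2 : ℝ) : ℂ) := by
      rw [Complex.conj_mul']
      push_cast
      rfl
    rw [← h3]
    ring
  rw [h1, Complex.sub_im, hQ4, sub_zero, Complex.im_sum]
  refine Finset.sum_congr rfl fun x _ => ?_
  rw [Complex.im_mul_ofReal]

end Pool.Agent.Lib.MP_562b47_mp.SX
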