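import Pool.Agent.Lib.MP_562b47_mp.SX.Defs
import Pool.Agent.Lib.MP_562b47_mp.GD.Seg
import Pool.Agent.Lib.MP_562b47_mp.GD.ExP

/-!
MP_562b47, slabs: existence of a profile with the cell estimate.
-/

open Finset

namespace Pool.Agent.Lib.MP_562b47_mp.SX

variable {d : ℕ} {F : Type} [Fintype F] [DecidableEq F] [Thin F]

/-- `φ` is an eigenfunction of the adjacency matrix of the cross-section without zeros -/
structure Mode (F : Type) [Fintype F] [Thin F] (φ : F → ℝ) (lam : ℝ) : Prop where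
  ne : ∀ f, φ f ≠ 0
  eq : ∀ f, tb φ f = lam * φ f

/-! ### The segment -/

private theorem Mt_map {R S : Type*} [CommRing R] [CommRing S] (f : R →+* S) (b : ℤ) (o : F)
    (q : St d F → R) : (Mt b o q).map f = Mt b o (fun x => f (q x)) := by
  ext x y
  simp only [Matrix.map_apply, Mt, Matrix.of_apply, map_sub]
  congr 1
  · rw [nbs_map]
    split_ifs <;> simp
  · split_ifs <;> simp

theorem seg (b : ℤ) (o : F) (q0 q1 : St d F → ℝ) (h : (Mt b o q1).det ≠ 0) (δ : ℝ) (hδ : 0 < δ) :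
    ∃ t : ℝ, 0 < t ∧ t < δ ∧ (Mt b o (fun x => (1 - t) * q0 x + t * q1 x)).det ≠ 0 := by
  classical
  set Q : St d F → Polynomial ℝ := fun x =>
    Polynomial.C (q0 x) * (1 - Polynomial.X) + Polynomial.C (q1 x) * Polynomial.X with hQ
  set D : Polynomial ℝ := (Mt b o Q).det with hD
  have hev : ∀ t : ℝ, D.eval t = (Mt b o (fun x => (1 - t) * q0 x + t * q1 x)).det := by
    intro t
    have h1 : (Polynomial.evalRingHom t) D = ((Mt b o Q).map (Polynomial.evalRingHom t)).det := by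
      rw [hD, RingHom.map_det, RingHom.mapMatrix_apply]
    rw [Mt_map] at h1
    rw [← Polynomial.coe_evalRingHom, h1]
    congr 2
    funext x
    simp only [hQ, Polynomial.coe_evalRingHom, Polynomial.eval_add, Polynomial.eval_mul,
      Polynomial.eval_C, Polynomial.eval_sub, Polynomial.eval_one, Polynomial.eval_X]
    ring
  have hD0 : D ≠ 0 := by
    intro h0
    have h1 := hev 1
    rw [h0, Polynomial.eval_zero] at h1
    apply h
    rw [h1]
    congr 2
    funext x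
    ring
  have hinf : (Set.Ioo (0 : ℝ) δ).Infinite := Set.Ioo_infinite hδ
  obtain ⟨t, ht, htn⟩ := hinf.exists_notMem_finset D.roots.toFinset
  refine ⟨t, ht.1, ht.2, ?_⟩
  rw [← hev]
  intro h0
  apply htn
  rw [Multiset.mem_toFinset, Polynomial.mem_roots hD0]
  exact h0

/-! ### The cell estimate from the minor -/

omit [Fintype F] [DecidableEq F] [Thin F] in
theorem Prof.ne {b : ℤ} {z : ℝ} (P : Prof d F b z) {x : St d F} (hx : x.1 ∈ GD.cl d b) :
    P.p x ≠ 0 := (P.row x.2).ne x.1 hx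

omit [Fintype F] [DecidableEq F] [Thin F] in
theorem Prof.out {b : ℤ} {z : ℝ} (P : Prof d F b z) {x : St d F} (hx : x.1 ∉ GD.cl d b) :
    P.p x = 0 := (P.row x.2).out x.1 hx

theorem one_mem_cl {b : ℤ} (hb : 3 ≤ b) : (1 : Fin d → ℤ) ∈ GD.cl d b := by
  rw [GD.mem_cl]
  intro i
  rw [Pi.one_apply]
  omega

theorem cell_est {b : ℤ} {z : ℝ} (P : Prof d F b z) (o : F) (hb : 3 ≤ b)
    (h : (Mt b o P.p).det ≠ 0) : ∃ C : ℝ, 0 < C ∧ CellEst b o P.p C := by
  classical
  obtain ⟨q, hq⟩ : ∃ q : St d F → ℂ, q = fun x => (P.p x : ℂ) := ⟨_, rfl⟩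
  have hM : Mt b o q = (Mt b o P.p).map Complex.ofRealHom := by
    rw [Mt_map, hq]
    rfl
  have hdet : (Mt b o q).det ≠ 0 := by
    rw [hM, ← RingHom.mapMatrix_apply, ← RingHom.map_det]
    intro h1
    exact h (Complex.ofReal_eq_zero.1 h1)
  have hU : IsUnit (Mt b o q).det := isUnit_iff_ne_zero.2 hdet
  have h11 : (ce d o).1 ∈ GD.cl d b := one_mem_cl hb
  have hp11 : (P.p (ce d o) : ℂ) ≠ 0 := by exact_mod_cast P.ne h11
  refine ⟨1 + ∑ x : ci d b o, ∑ y : ci d b o, ‖(Mt b o q)⁻¹ x y‖ * |P.p y|, by positivity, ?_⟩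
  intro v G hG hv hest x hx
  obtain ⟨s, hs⟩ : ∃ s : ℂ, s = v (ce d o) / (P.p (ce d o) : ℂ) := ⟨_, rfl⟩
  obtain ⟨v', hv'⟩ : ∃ v' : St d F → ℂ, v' = fun x => v x - s * (P.p x : ℂ) := ⟨_, rfl⟩
  have hv0 : ∀ x, x ∉ ci d b o → v' x = 0 := by
    intro x hx
    by_cases h1 : x ∈ cl d F b
    · have h2 : x = ce d o := by
        by_contra h3
        exact hx (Finset.mem_erase.2 ⟨h3, h1⟩)
      rw [hv', h2, hs]
      simp only
      rw [div_mul_cancel₀ _ hp11, sub_self]
    · rw [hv']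
      simp only
      rw [hv x h1, P.out (fun h => h1 (mem_cl.2 h))]
      simp
  have hmv : ∀ y : ci d b o, (Mt b o q).mulVec (fun y => v' y) y =
      (P.p y : ℂ) * ((Vp P.p y : ℂ) * v y - nbs v y) := by
    intro y
    rw [Mt_mulVec b o q v' hv0 y]
    have hy := (mem_ci.1 y.2).2
    have hpy : (P.p y : ℂ) ≠ 0 := by exact_mod_cast P.ne hy
    have e1 : nbs q y = (Vp P.p y : ℂ) * (P.p y : ℂ) := by
      have e0 : Vp P.p y * P.p y = nbs P.p y := by
        unfold Vp
        exact div_mul_cancel₀ _ (P.ne hy)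
      have e3 : nbs q (y : St d F) = ((nbs P.p (y : St d F) : ℝ) : ℂ) := by
        rw [hq]
        exact nbs_map Complex.ofRealHom P.p y
      rw [e3, ← e0]
      push_cast
      rfl
    have e2 : nbs v' y = nbs v y - s * nbs q y := by
      have e4 : v' = fun x => v x - s * q x := by rw [hv', hq]
      rw [e4, nbs_sub v (fun x => s * q x), nbs_mul]
    rw [e2, e1, hv', hq]
    simp only
    ring
  have hbd : ∀ y : ci d b o, ‖(Mt b o q).mulVec (fun y => v' y) y‖ ≤ |P.p y| * G := by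
    intro y
    have hy := Finset.mem_erase.1 y.2
    rw [hmv, norm_mul, Complex.norm_real, Real.norm_eq_abs]
    exact mul_le_mul_of_nonneg_left (hest y hy.2 hy.1) (abs_nonneg _)
  have hsum : ∀ y : ci d b o, 0 ≤ ∑ w : ci d b o, ‖(Mt b o q)⁻¹ y w‖ * |P.p w| := fun y =>
    Finset.sum_nonneg fun w _ => by positivity
  by_cases hx1 : x = ce d o
  · rw [hx1, div_mul_cancel₀ _ hp11, sub_self, norm_zero]
    have : 0 ≤ ∑ x : ci d b o, ∑ y : ci d b o, ‖(Mt b o q)⁻¹ x y‖ * |P.p y| :=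
      Finset.sum_nonneg fun y _ => hsum y
    positivity
  · have hxc : x ∈ ci d b o := Finset.mem_erase.2 ⟨hx1, hx⟩
    have h1 : (Mt b o q)⁻¹.mulVec ((Mt b o q).mulVec (fun y : ci d b o => v' y)) =
        fun y : ci d b o => v' y := by
      rw [Matrix.mulVec_mulVec, Matrix.nonsing_inv_mul _ hU, Matrix.one_mulVec]
    have h2 : v' x = ∑ y : ci d b o, (Mt b o q)⁻¹ ⟨x, hxc⟩ y *
        (Mt b o q).mulVec (fun y : ci d b o => v' y) y := (congrFun h1 ⟨x, hxc⟩).symm
    have h3 : v x - v (ce d o) / (P.p (ce d o) : ℂ) * (P.p x : ℂ) = v' x := by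
      rw [hv', hs]
    rw [h3, h2]
    refine (norm_sum_le _ _).trans ?_
    have h4 : ∑ y : ci d b o, ‖(Mt b o q)⁻¹ ⟨x, hxc⟩ y *
        (Mt b o q).mulVec (fun y : ci d b o => v' y) y‖ ≤
        (∑ y : ci d b o, ‖(Mt b o q)⁻¹ ⟨x, hxc⟩ y‖ * |P.p y|) * G := by
      rw [Finset.sum_mul]
      refine Finset.sum_le_sum fun y _ => ?_
      rw [norm_mul, mul_assoc]
      exact mul_le_mul_of_nonneg_left (hbd y) (norm_nonneg _)
    refine h4.trans (mul_le_mul_of_nonneg_right ?_ hG)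
    have h5 : ∑ y : ci d b o, ‖(Mt b o q)⁻¹ ⟨x, hxc⟩ y‖ * |P.p y| ≤
        ∑ x : ci d b o, ∑ y : ci d b o, ‖(Mt b o q)⁻¹ x y‖ * |P.p y| :=
      Finset.single_le_sum
        (f := fun x : ci d b o => ∑ y : ci d b o, ‖(Mt b o q)⁻¹ x y‖ * |P.p y|)
        (fun y _ => hsum y) (Finset.mem_univ (⟨x, hxc⟩ : ci d b o))
    exact h5.trans (le_add_of_nonneg_left zero_le_one)

/-! ### The positive profile -/

/-- the positive profile -/
noncomputable def q1 (d : ℕ) (F : Type) (b : ℤ) (z : ℝ) (x : St d F) : ℝ := GD.p1 b z x.1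

/-- maximum principle -/
private theorem max_principle {b : ℤ} (hb : 3 ≤ b) {z : ℝ} (hz : 0 < z) (o : F) (g : St d F → ℝ)
    (h0 : g (ce d o) = 0)
    (hg : ∀ x : St d F, x.1 ∈ GD.cl d b → x ≠ ce d o →
      nbs (fun y => q1 d F b z y * (g x - g y)) x = 0) :
    ∀ x : St d F, x.1 ∈ GD.cl d b → g x ≤ 0 := by
  have hout : ∀ y : Fin d → ℤ, y ∉ GD.cl d b → GD.p1 b z y = 0 := by
    intro y hy
    unfold GD.p1
    rw [if_neg hy]
  intro x0 hx0
  obtain ⟨x1, hx1, hm1⟩ := exists_max_image (cl d F b) g ⟨x0, mem_cl.2 hx0⟩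
  obtain ⟨x, hx, hm⟩ := exists_min_image ((cl d F b).filter (fun y => g y = g x1))
    (fun y => ∑ i, y.1 i) ⟨x1, mem_filter.2 ⟨hx1, rfl⟩⟩
  rw [mem_filter, mem_cl] at hx
  obtain ⟨hxc, hxg⟩ := hx
  have hmax : ∀ y : St d F, y.1 ∈ GD.cl d b → g y ≤ g x1 := fun y hy => hm1 y (mem_cl.2 hy)
  have hterm : ∀ w : St d F, g w = g x1 → ∀ y, 0 ≤ q1 d F b z y * (g w - g y) := by
    intro w hw y
    unfold q1
    by_cases hy : y.1 ∈ GD.cl d b
    · refine mul_nonneg (GD.p1_pos hz _ hy).le (sub_nonneg.2 ?_)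
      rw [hw]
      exact hmax y hy
    · rw [hout _ hy, zero_mul]
  -- at a maximum different from the centre all neighbours in the cell are maxima
  have hprop : ∀ w : St d F, w.1 ∈ GD.cl d b → g w = g x1 → w ≠ ce d o → ∀ y, adj w y →
      y.1 ∈ GD.cl d b → g y = g x1 := by
    intro w hw hwg hwo y hwy hy
    have h1 := hg w hw hwo
    have h2 := sum_adj (R := ℝ) (cl d F b) (fun y => q1 d F b z y * (g w - g y)) (fun y hy => by
      rw [mem_cl] at hy
      show GD.p1 b z y.1 * (g w - g y) = 0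
      rw [hout _ hy, zero_mul]) w 1
    rw [one_mul, h1] at h2
    rw [Finset.sum_eq_zero_iff_of_nonneg (fun y _ => mul_nonneg (by split_ifs <;> norm_num)
      (hterm w hwg y))] at h2
    have h3 := h2 y (mem_cl.2 hy)
    rw [if_pos hwy, one_mul] at h3
    have h4 : 0 < q1 d F b z y := GD.p1_pos hz _ hy
    rcases mul_eq_zero.1 h3 with h5 | h5
    · exact absurd h5 h4.ne'
    · linarith
  -- the minimal point is in the column of the centre
  have hx1' : x.1 = 1 := by
    by_contra hne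
    obtain ⟨i, hi⟩ := Function.ne_iff.1 hne
    have hi1 : x.1 i ≠ 1 := hi
    have hxm := GD.mem_cl.1 hxc
    have hy : GD.sh x.1 i (-1) ∈ GD.cl d b := by
      rw [GD.mem_cl]
      intro j
      by_cases hj : j = i
      · rw [hj, GD.sh_same]
        have := hxm i
        omega
      · rw [GD.sh_ne x.1 hj]
        exact hxm j
    have h2 := hprop x hxc hxg (fun h => hne (congrArg Prod.fst h)) (GD.sh x.1 i (-1), x.2)
      (Or.inl ⟨⟨i, Or.inr rfl⟩, rfl⟩) hy
    have h4 := hm (GD.sh x.1 i (-1), x.2) (mem_filter.2 ⟨mem_cl.2 hy, h2⟩)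
    have h3 : ∑ j, GD.sh x.1 i (-1) j < ∑ j, x.1 j := by
      refine sum_lt_sum (fun j _ => ?_) ⟨i, mem_univ i, ?_⟩
      · by_cases hj : j = i
        · rw [hj, GD.sh_same]
          omega
        · rw [GD.sh_ne x.1 hj]
      · rw [GD.sh_same]
        omega
    simp only at h4
    omega
  -- the column of the centre
  have hcol : g (ce d o) = g x1 := by
    by_contra hne
    have h1 := Thin.conn {f : F | g (1, f) = g x1} ⟨x.2, by
      show g (1, x.2) = g x1
      rw [← hx1']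
      exact hxg⟩ (fun f hf f' hff => by
        refine hprop (1, f) (one_mem_cl hb) hf (fun h => hne ?_) (1, f') (Or.inr ⟨rfl, hff⟩)
          (one_mem_cl hb)
        rw [← h]
        exact hf) o
    exact hne h1
  have h5 := hmax x0 hx0
  rw [← hcol, h0] at h5
  exact h5

theorem q1_minor {b : ℤ} (hb : 3 ≤ b) {z : ℝ} (hz : 0 < z) (o : F) :
    (Mt b o (q1 d F b z)).det ≠ 0 := by
  intro hdet
  obtain ⟨u, hu0, hu⟩ := Matrix.exists_mulVec_eq_zero_iff.2 hdet
  apply hu0
  classical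
  set v : St d F → ℝ := fun x => if hx : x ∈ ci d b o then u ⟨x, hx⟩ else 0 with hv
  have hvu : (fun y : ci d b o => v y) = u := by
    funext y
    simp only [hv]
    rw [dif_pos y.2]
  have hv0 : ∀ x, x ∉ ci d b o → v x = 0 := by
    intro x hx
    simp only [hv]
    rw [dif_neg hx]
  have heq : ∀ x ∈ ci d b o, nbs (q1 d F b z) x * v x - q1 d F b z x * nbs v x = 0 := by
    intro x hx
    have h1 := Mt_mulVec b o (q1 d F b z) v hv0 ⟨x, hx⟩
    rw [hvu, hu] at h1
    exact h1.symm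
  have hcl : ∀ x : St d F, x.1 ∉ GD.cl d b → v x = 0 := by
    intro x hx
    apply hv0
    intro h
    exact hx (mem_ci.1 h).2
  have hpos : ∀ x : St d F, x.1 ∈ GD.cl d b → 0 < q1 d F b z x := fun x hx => GD.p1_pos hz _ hx
  have hout : ∀ x : St d F, x.1 ∉ GD.cl d b → q1 d F b z x = 0 := by
    intro x hx
    unfold q1 GD.p1
    rw [if_neg hx]
  set g : St d F → ℝ := fun x => v x / q1 d F b z x with hgdef
  have hvg : ∀ x, v x = q1 d F b z x * g x := by
    intro x
    by_cases hx : x.1 ∈ GD.cl d b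
    · have := (hpos x hx).ne'
      simp only [hgdef]
      field_simp
    · rw [hcl x hx, hout x hx, zero_mul]
  have hg0 : g (ce d o) = 0 := by
    have : v (ce d o) = 0 := hv0 _ (by
      unfold ci
      exact notMem_erase _ _)
    simp only [hgdef]
    rw [this, zero_div]
  have hgeq : ∀ x : St d F, x.1 ∈ GD.cl d b → x ≠ ce d o →
      nbs (fun y => q1 d F b z y * (g x - g y)) x = 0 := by
    intro x hx hne
    have h1 := heq x (mem_ci.2 ⟨hne, hx⟩)
    have h2 := (hpos x hx).ne'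
    have h3 : nbs (fun y => q1 d F b z y * (g x - g y)) x =
        nbs (q1 d F b z) x * g x - nbs v x := by
      have e1 : (fun y => q1 d F b z y * (g x - g y)) =
          fun y => g x * q1 d F b z y - v y := by
        funext y
        rw [hvg y]
        ring
      rw [e1, nbs_sub (fun y => g x * q1 d F b z y) v, nbs_mul, mul_comm]
    apply mul_left_cancel₀ h2
    rw [mul_zero, ← h1, h3, hvg x]
    ring
  have hle := max_principle hb hz o g hg0 hgeq
  have hge := max_principle hb hz o (fun x => -g x) (by show -g (ce d o) = 0; rw [hg0, neg_zero])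
    (fun x hx hne => by
      have h1 := hgeq x hx hne
      have e1 : (fun y => q1 d F b z y * (-g x - -g y)) =
          fun y => (-1) * (q1 d F b z y * (g x - g y)) := by
        funext y; ring
      show nbs (fun y => q1 d F b z y * (-g x - -g y)) x = 0
      rw [e1, nbs_mul, h1, mul_zero])
  funext y
  have hy : (y : St d F).1 ∈ GD.cl d b := (mem_ci.1 y.2).2
  have h1 := hle y hy
  have h2 : -g y ≤ 0 := hge y hy
  have h3 : g y = 0 := le_antisymm h1 (by linarith)
  have h4 : v y = 0 := by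
    rw [hvg, h3, mul_zero]
  have h5 := congrFun hvu y
  rw [← h5]
  exact h4

/-! ### Existence -/

private theorem tend (q0 q1 : St d F → ℝ) (x : St d F) (h : q0 x ≠ 0) (ε : ℝ) (hε : 0 < ε) :
    ∃ δ : ℝ, 0 < δ ∧ ∀ t : ℝ, 0 < t → t < δ →
      (1 - t) * q0 x + t * q1 x ≠ 0 ∧
      |Vp (fun x => (1 - t) * q0 x + t * q1 x) x - Vp q0 x| < ε := by
  have h1 : ContinuousAt (fun t : ℝ => (1 - t) * q0 x + t * q1 x) 0 := by fun_prop
  have h2 : ContinuousAt (fun t : ℝ => Vp (fun x => (1 - t) * q0 x + t * q1 x) x) 0 := by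
    unfold Vp
    simp only [nbs_lin]
    refine ContinuousAt.div (by fun_prop) (by fun_prop) ?_
    show (1 - 0) * q0 x + 0 * q1 x ≠ 0
    rw [sub_zero, one_mul, zero_mul, add_zero]
    exact h
  have h3 : ∀ᶠ t in nhds (0 : ℝ), (1 - t) * q0 x + t * q1 x ≠ 0 := by
    refine h1.eventually_ne ?_
    show (1 - 0) * q0 x + 0 * q1 x ≠ 0
    rw [sub_zero, one_mul, zero_mul, add_zero]
    exact h
  have h4 : ∀ᶠ t in nhds (0 : ℝ), |Vp (fun x => (1 - t) * q0 x + t * q1 x) x - Vp q0 x| < ε := by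
    have h5 := Metric.tendsto_nhds.1 h2.tendsto ε hε
    have h6 : Vp (fun x => (1 - (0 : ℝ)) * q0 x + 0 * q1 x) x = Vp q0 x := by
      congr 1
      funext y
      rw [sub_zero, one_mul, zero_mul, add_zero]
    filter_upwards [h5] with t ht
    rw [Real.dist_eq, h6] at ht
    exact ht
  obtain ⟨δ, hδ, hd⟩ := Metric.eventually_nhds_iff.1 (h3.and h4)
  refine ⟨δ, hδ, fun t ht ht' => hd ?_⟩
  rw [Real.dist_eq, sub_zero, abs_of_pos ht]
  exact ht'

private theorem tend_all (q0 q1 : St d F → ℝ) (ε : ℝ) (hε : 0 < ε) (S : Finset (St d F)) :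
    (∀ x ∈ S, q0 x ≠ 0) → ∃ δ : ℝ, 0 < δ ∧ ∀ t : ℝ, 0 < t → t < δ → ∀ x ∈ S,
      (1 - t) * q0 x + t * q1 x ≠ 0 ∧
      |Vp (fun x => (1 - t) * q0 x + t * q1 x) x - Vp q0 x| < ε := by
  classical
  refine Finset.induction_on S ?_ ?_
  · intro _
    exact ⟨1, one_pos, fun t _ _ x hx => absurd hx (Finset.notMem_empty x)⟩
  · intro a S _ ih h
    obtain ⟨δ1, h1, h2⟩ := ih fun x hx => h x (Finset.mem_insert_of_mem hx)
    obtain ⟨δ2, h3, h4⟩ := tend q0 q1 a (h a (Finset.mem_insert_self a S)) ε hε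
    refine ⟨min δ1 δ2, lt_min h1 h3, fun t ht ht' x hx => ?_⟩
    rcases Finset.mem_insert.1 hx with hx | hx
    · rw [hx]
      exact h4 t ht (ht'.trans_le (min_le_right _ _))
    · exact h2 t ht (ht'.trans_le (min_le_left _ _)) x hx

/-- one profile for the long directions, all centres `o` at once -/
theorem exists_prof (hd : 1 ≤ d) {φ : F → ℝ} {lam : ℝ} (hφ : Mode F φ lam) (v : ℝ)
    (hv : -(2 * (d : ℝ)) < v - lam) (hv' : v - lam < 2 * (d : ℝ)) (ε : ℝ) (hε : 0 < ε) :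
    ∃ (b : ℤ) (z : ℝ), 3 ≤ b ∧ 0 < z ∧ z < 1 ∧ ∀ o : F, ∃ (P : Prof d F b z) (C : ℝ),
      (∀ x : St d F, x.1 ∈ GD.cl d b → |Vp P.p x - v| < ε) ∧ 0 < C ∧ CellEst b o P.p C := by
  have hd0 : (0 : ℝ) < d := by exact_mod_cast hd
  have hv1 : -4 < 2 * (v - lam) / d := by
    rw [lt_div_iff₀ hd0]
    linarith
  have hv2 : 2 * (v - lam) / d < 4 := by
    rw [div_lt_iff₀ hd0]
    linarith
  obtain ⟨b, k, hb, h0, hs, h1, hk'⟩ :=
    BG.dens (2 * (v - lam) / d) hv1 hv2 (2 * (ε / 3) / d) (by positivity)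
  have hk : |2 * d * Real.cos k - (v - lam)| < ε / 3 := by
    have e1 : 2 * (d : ℝ) * Real.cos k - (v - lam) =
        (d / 2) * (4 * Real.cos k - 2 * (v - lam) / d) := by
      field_simp
      ring
    rw [e1, abs_mul, abs_of_pos (by positivity : (0 : ℝ) < d / 2)]
    calc (d : ℝ) / 2 * |4 * Real.cos k - 2 * (v - lam) / d| < d / 2 * (2 * (ε / 3) / d) :=
          mul_lt_mul_of_pos_left hk' (by positivity)
      _ = ε / 3 := by field_simp
  obtain ⟨z0, hz0, hz1, hz⟩ := GD.p0_Vp (d := d) hb h0 hs (ε / 3) (by linarith)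
  obtain ⟨z, hzz, hzz1⟩ : ∃ z : ℝ, z0 < z ∧ z < 1 := exists_between hz1
  have hzp : 0 < z := hz0.trans hzz
  refine ⟨b, z, hb, hzp, hzz1, fun o => ?_⟩
  obtain ⟨P0, hP0⟩ := GD.p0_prof (d := d) hb hs h1 hzp
  obtain ⟨P1, hP1⟩ := GD.p1_prof (d := d) hb hzp
  set p0 : St d F → ℝ := fun x => φ x.2 * P0.p x.1 with hp0
  have hq1 : (fun x : St d F => P1.p x.1) = q1 d F b z := by
    funext x
    rw [hP1]
    rfl
  have hp0V : ∀ x : St d F, x.1 ∈ GD.cl d b → Vp p0 x = GD.Vp (GD.p0 b k z) x.1 + lam := by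
    intro x hx
    have a1 : p0 x ≠ 0 := mul_ne_zero (hφ.ne _) (P0.ne _ hx)
    have a2 : P0.p x.1 ≠ 0 := P0.ne _ hx
    have a3 : nbs p0 x = φ x.2 * GD.nbs P0.p x.1 + lam * p0 x := by
      unfold nbs
      congr 1
      · unfold GD.nbs
        rw [Finset.mul_sum]
        refine Finset.sum_congr rfl fun i _ => ?_
        simp only [hp0]
        ring
      · have a4 := hφ.eq x.2
        unfold tb at a4 ⊢
        simp only [hp0]
        have a5 : ∑ g, (if Thin.B x.2 g then φ g * P0.p x.1 else 0) =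
            (∑ g, (if Thin.B x.2 g then φ g else 0)) * P0.p x.1 := by
          rw [Finset.sum_mul]
          refine Finset.sum_congr rfl fun g _ => ?_
          split_ifs <;> simp
        rw [a5, a4]
        ring
    unfold Vp GD.Vp
    rw [a3, ← hP0]
    have a6 := hφ.ne x.2
    simp only [hp0] at a1 ⊢
    field_simp
  obtain ⟨δ, hδ, hdl⟩ := tend_all p0 (fun x => P1.p x.1) (ε / 3) (by linarith) (cl d F b)
    (fun x hx => mul_ne_zero (hφ.ne _) (P0.ne _ (mem_cl.1 hx)))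
  obtain ⟨t, ht, ht', hdet⟩ := seg b o p0 (fun x => P1.p x.1)
    (by rw [hq1]; exact q1_minor hb hzp o) δ hδ
  have hP : ∃ P : Prof d F b z, P.p = fun x => (1 - t) * p0 x + t * P1.p x.1 := by
    refine ⟨⟨fun f => ⟨fun y => (1 - t) * (φ f * P0.p y) + t * P1.p y,
      fun y hy => (hdl t ht ht' (y, f) (mem_cl.2 hy)).1, fun y hy => ?_, fun i y => ?_⟩⟩, rfl⟩
    · show (1 - t) * (φ f * P0.p y) + t * P1.p y = 0
      rw [P0.out y hy, P1.out y hy]
      ring
    · show (1 - t) * (φ f * P0.p (Function.update y i (b - 1))) +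
          t * P1.p (Function.update y i (b - 1)) =
        z * ((1 - t) * (φ f * P0.p (Function.update y i 1)) + t * P1.p (Function.update y i 1))
      rw [P0.side i y, P1.side i y]
      ring
  obtain ⟨P, hPp⟩ := hP
  obtain ⟨C, hC, hCE⟩ := cell_est P o hb (by rw [hPp]; exact hdet)
  refine ⟨P, C, fun x hx => ?_, hC, hCE⟩
  have a1 := (hdl t ht ht' x (mem_cl.2 hx)).2
  have a2 := hz z hzz hzz1 x.1 hx
  rw [← hPp] at a1
  rw [hp0V x hx] at a1
  have a3 : Vp P.p x - v = (Vp P.p x - (GD.Vp (GD.p0 b k z) x.1 + lam)) +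
      (GD.Vp (GD.p0 b k z) x.1 - 2 * d * Real.cos k) + (2 * d * Real.cos k - (v - lam)) := by ring
  rw [a3]
  have a4 := abs_add_le ((Vp P.p x - (GD.Vp (GD.p0 b k z) x.1 + lam)) +
    (GD.Vp (GD.p0 b k z) x.1 - 2 * d * Real.cos k)) (2 * d * Real.cos k - (v - lam))
  have a5 := abs_add_le (Vp P.p x - (GD.Vp (GD.p0 b k z) x.1 + lam))
    (GD.Vp (GD.p0 b k z) x.1 - 2 * d * Real.cos k)
  linarith

end Pool.Agent.Lib.MP_562b47_mp.SX
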