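import Pool.Agent.Lib.MP_562b47_mp.SX.Sol

/-!
MP_562b47, slabs: `u / ww` is almost constant in every cell and across the nodes.
-/

open Finset

set_option linter.unusedSectionVars false

namespace Pool.Agent.Lib.MP_562b47_mp.SX

variable {d : ℕ} {F : Type} [Fintype F] [DecidableEq F] [Thin F] {b : ℤ} {z : ℝ}

/-- `u` masked at the nodes -/
def msk (b : ℤ) (u : St d F → ℂ) (x : St d F) : ℂ := if node b x then 0 else u x

/-- one coordinate of the sites of a cell -/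
private def xj (b s i r : ℤ) : ℤ := s * (b * i + r)

private theorem xj_abs {b s i r : ℤ} (hb : 3 ≤ b) (hs : s = 1 ∨ s = -1) (hi : 0 ≤ i) (hr : 0 ≤ r) :
    |xj b s i r| = b * i + r := by
  have h0 : 0 ≤ b * i := mul_nonneg (by omega) hi
  have h1 : 0 ≤ b * i + r := by omega
  unfold xj
  rcases hs with rfl | rfl
  · rw [one_mul, abs_of_nonneg h1]
  · rw [abs_mul, abs_neg, abs_one, one_mul, abs_of_nonneg h1]

private theorem xj_dm {b s i r : ℤ} (hb : 3 ≤ b) (hs : s = 1 ∨ s = -1) (hi : 0 ≤ i) (hr : 0 ≤ r)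
    (hr1 : r < b) : |xj b s i r| / b = i ∧ |xj b s i r| % b = r := by
  rw [xj_abs hb hs hi hr]
  exact (Int.ediv_emod_unique (by omega)).2 ⟨by ring, hr, hr1⟩

private theorem xj_sign {b s i r : ℤ} (hb : 3 ≤ b) (hs : s = 1 ∨ s = -1) (hi : 0 ≤ i)
    (hr : 1 ≤ r) : (xj b s i r).sign = s := by
  have h0 : 0 ≤ b * i := mul_nonneg (by omega) hi
  have h1 : 0 < b * i + r := by omega
  unfold xj
  rcases hs with rfl | rfl
  · rw [one_mul]
    exact Int.sign_eq_one_of_pos h1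
  · rw [neg_one_mul, Int.sign_neg, Int.sign_eq_one_of_pos h1]

private theorem xj_nd {b s i r : ℤ} (hb : 3 ≤ b) (hs : s = 1 ∨ s = -1) (hi : 0 ≤ i)
    (hr : 1 ≤ r) (hr1 : r < b) : ¬ b ∣ xj b s i r := by
  intro h
  have h2 := Int.emod_eq_zero_of_dvd ((dvd_abs b _).2 h)
  rw [(xj_dm hb hs hi (by omega) hr1).2] at h2
  omega

private theorem xj_dvd {b s i r : ℤ} (hr : r = 0 ∨ r = b) : b ∣ xj b s i r := by
  unfold xj
  rcases hr with h | h
  · rw [h, add_zero]
    exact Dvd.intro (s * i) (by ring)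
  · rw [h]
    exact Dvd.intro (s * (i + 1)) (by ring)

/-- representation of a non-multiple of `b` -/
private theorem xj_rep {b n : ℤ} (hb : 3 ≤ b) (hn : ¬ b ∣ n) :
    (n.sign = 1 ∨ n.sign = -1) ∧ 0 ≤ |n| / b ∧ 1 ≤ |n| % b ∧ |n| % b < b ∧
      xj b n.sign (|n| / b) (|n| % b) = n := by
  have hn0 : n ≠ 0 := by
    rintro rfl
    exact hn (dvd_zero b)
  have h0 : 0 ≤ |n| % b := Int.emod_nonneg _ (by omega)
  have h1 : |n| % b < b := Int.emod_lt_of_pos _ (by omega)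
  have h2 : |n| % b ≠ 0 := by
    intro h3
    exact hn ((dvd_abs b n).1 (Int.dvd_of_emod_eq_zero h3))
  refine ⟨?_, Int.ediv_nonneg (abs_nonneg _) (by omega), by omega, h1, ?_⟩
  · rcases lt_or_gt_of_ne hn0 with h | h
    · right
      exact Int.sign_eq_neg_one_of_neg h
    · left
      exact Int.sign_eq_one_of_pos h
  · unfold xj
    rw [Int.mul_ediv_add_emod]
    exact Int.sign_mul_abs n

/-- same floor, not multiples of `b`: same sign and level -/
private theorem same_cell {b n m : ℤ} (hb : 3 ≤ b) (hn : ¬ b ∣ n) (hm : ¬ b ∣ m)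
    (h : n / b = m / b) : n.sign = m.sign ∧ |n| / b = |m| / b := by
  have hb0 : 0 < b := by omega
  have hn0 : n ≠ 0 := by
    rintro rfl
    exact hn (dvd_zero b)
  have hm0 : m ≠ 0 := by
    rintro rfl
    exact hm (dvd_zero b)
  have key : ∀ k : ℤ, ¬ b ∣ k → (-k) / b = -(k / b) - 1 := by
    intro k hk
    have a0 : 0 ≤ k % b := Int.emod_nonneg _ (by omega)
    have a1 : k % b < b := Int.emod_lt_of_pos _ hb0
    have a2 : k % b ≠ 0 := fun h3 => hk (Int.dvd_of_emod_eq_zero h3)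
    have a3 := Int.mul_ediv_add_emod k b
    refine ((Int.ediv_emod_unique hb0 (a := -k) (q := -(k / b) - 1) (r := b - k % b)).2
      ⟨?_, by omega, by omega⟩).1
    have a4 : b - k % b + b * (-(k / b) - 1) = -(b * (k / b) + k % b) := by ring
    rw [a4, a3]
  rcases lt_or_gt_of_ne hn0 with h1 | h1
  · have h2 : n / b < 0 := Int.ediv_neg_of_neg_of_pos h1 hb0
    have h3 : m < 0 := by
      by_contra hc
      have h4 : 0 ≤ m / b := Int.ediv_nonneg (by omega) hb0.le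
      omega
    rw [Int.sign_eq_neg_one_of_neg h1, Int.sign_eq_neg_one_of_neg h3, abs_of_neg h1,
      abs_of_neg h3, key n hn, key m hm, h]
    exact ⟨rfl, rfl⟩
  · have h2 : 0 ≤ n / b := Int.ediv_nonneg h1.le hb0.le
    have h3 : 0 < m := by
      by_contra hc
      have h4 : m < 0 := by omega
      have h5 : m / b < 0 := Int.ediv_neg_of_neg_of_pos h4 hb0
      omega
    rw [Int.sign_eq_one_of_pos h1, Int.sign_eq_one_of_pos h3, abs_of_pos h1,
      abs_of_pos h3, h]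
    exact ⟨rfl, rfl⟩

/-- the sites of a cell -/
private def xs (b : ℤ) (s i r : Fin d → ℤ) : Fin d → ℤ := fun j => xj b (s j) (i j) (r j)

private theorem sh_xs {b : ℤ} {s i : Fin d → ℤ} (r : Fin d → ℤ) (j : Fin d)
    (hs : s j = 1 ∨ s j = -1) (t : ℤ) :
    GD.sh (xs b s i r) j t = xs b s i (GD.sh r j (s j * t)) := by
  funext k
  by_cases hk : k = j
  · subst hk
    rw [GD.sh_same]
    unfold xs xj
    rw [GD.sh_same]
    rcases hs with h | h <;> rw [h] <;> ring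
  · rw [GD.sh_ne _ hk]
    unfold xs
    rw [GD.sh_ne _ hk]

private theorem nbs_xs {b : ℤ} {s i : Fin d → ℤ} (hs : ∀ j, s j = 1 ∨ s j = -1)
    (f : St d F → ℂ) (r : St d F) :
    nbs f (xs b s i r.1, r.2) = nbs (fun t => f (xs b s i t.1, t.2)) r := by
  unfold nbs GD.nbs
  congr 1
  refine Finset.sum_congr rfl fun j _ => ?_
  beta_reduce
  rw [sh_xs r.1 j (hs j), sh_xs r.1 j (hs j)]
  rcases hs j with h | h
  · rw [h, one_mul, one_mul]
  · rw [h, mul_one, neg_mul_neg, one_mul]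
    exact add_comm _ _

/-- a neighbour of a site of the cell is in the cell or on its frame -/
private theorem adj_cl {b : ℤ} {r t : Fin d → ℤ} (hr : r ∈ GD.cl d b) (h : GD.adj r t) :
    t ∈ GD.cl d b ∨ ∃ j, t j = 0 ∨ t j = b := by
  rw [GD.mem_cl] at hr ⊢
  by_contra hc
  push Not at hc
  obtain ⟨⟨k, hk⟩, h2⟩ := hc
  obtain ⟨j, hj | hj⟩ := h
  · by_cases hkj : k = j
    · subst hkj
      have h3 := h2 k
      have h4 := hr k
      rw [hj, GD.sh_same] at h3 hk
      omega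
    · rw [hj, GD.sh_ne _ hkj] at hk
      have h4 := hr k
      omega
  · by_cases hkj : k = j
    · subst hkj
      have h3 := h2 k
      have h4 := hr k
      rw [hj, GD.sh_same] at h3 hk
      omega
    · rw [hj, GD.sh_ne _ hkj] at hk
      have h4 := hr k
      omega

theorem cell_one (hb : 3 ≤ b) (hz : 0 < z) (P : Prof d F b z) (o : F) {CM : ℝ} (hC : 0 < CM)
    (hP : CellEst b o P.p CM) (pm : ℝ) (hpm : 0 < pm)
    (hlow : ∀ N : ℕ, 1 ≤ N → ∀ x : St d F, ¬ node b x → (∀ i, |x.1 i| < b * N) →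
      pm * z ^ (d * N) ≤ |ww b z P.p x|)
    (N : ℕ) (hN : 1 ≤ N) (u : St d F → ℂ) (G : ℝ) (hG : 0 ≤ G)
    (h : ∀ x : St d F, ¬ node b x → (∀ i, |x.1 i| < b * N) → x ≠ ce d o →
      ‖(Ve b P.p x : ℂ) * u x - nbs (msk b u) x‖ ≤ G)
    (s i : Fin d → ℤ) (hs : ∀ j, s j = 1 ∨ s j = -1)
    (hi : ∀ j, 0 ≤ i j) (hi' : ∀ j, i j < N) :
    ∃ q : ℂ, ∀ r ∈ GD.cl d b, ∀ f : F,
      ‖u (xs b s i r, f) / (ww b z P.p (xs b s i r, f) : ℂ) - q‖ ≤
      CM * G / (pm * z ^ (d * N)) := by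
  -- facts on the sites
  have hnd : ∀ r ∈ GD.cl d b, ¬ GD.node b (xs b s i r) := by
    intro r hr hn
    rw [GD.mem_cl] at hr
    obtain ⟨j, h1⟩ := hn
    exact xj_nd hb (hs j) (hi j) (hr j).1 (by have := (hr j).2; omega) h1
  have hrr : ∀ r ∈ GD.cl d b, GD.rr b (xs b s i r) = r := by
    intro r hr
    rw [GD.mem_cl] at hr
    funext j
    unfold GD.rr xs
    have h1 := hr j
    exact (xj_dm hb (hs j) (hi j) (by omega) (by omega)).2
  have hlt : ∀ i r : ℤ, i < N → r ≤ b - 1 → b * i + r < b * N := by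
    intro i r h1 h2
    have h3 : i + 1 ≤ (N : ℤ) := h1
    have h4 : b * (i + 1) ≤ b * N := mul_le_mul_of_nonneg_left h3 (by omega)
    have h5 : b * (i + 1) = b * i + b := by ring
    omega
  have hsz : ∀ r ∈ GD.cl d b, ∀ j, |(xs b s i r) j| < b * N := by
    intro r hr j
    rw [GD.mem_cl] at hr
    have h1 := hr j
    change |xj b (s j) (i j) (r j)| < b * N
    rw [xj_abs hb (hs j) (hi j) (by omega)]
    exact hlt _ _ (hi' j) h1.2
  have hbi : ∀ i r : ℤ, 0 ≤ i → 1 ≤ r → b * i + r = 1 → r = 1 := by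
    intro i r h1 h2 h3
    have h4 : 0 ≤ b * i := mul_nonneg (by omega) h1
    omega
  have hone : ∀ r ∈ GD.cl d b, ∀ f : F, ((r, f) : St d F) ≠ ce d o →
      ((xs b s i r, f) : St d F) ≠ ce d o := by
    intro r hr f hr1 he
    rw [GD.mem_cl] at hr
    apply hr1
    have he1 : xs b s i r = 1 := congrArg Prod.fst he
    have he2 : f = o := congrArg Prod.snd he
    refine Prod.ext ?_ he2
    show r = 1
    funext j
    have e1 : xj b (s j) (i j) (r j) = 1 := congrFun he1 j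
    have h1 := hr j
    have f1 := xj_abs (r := r j) hb (hs j) (hi j) (by omega)
    rw [e1, abs_one] at f1
    exact hbi _ _ (hi j) h1.1 f1.symm
  -- the values in the cell
  obtain ⟨v, hv⟩ : ∃ v : St d F → ℂ, v = fun r => if r.1 ∈ GD.cl d b then u (xs b s i r.1, r.2)
    else 0 := ⟨_, rfl⟩
  have hv0 : ∀ r : St d F, r.1 ∉ GD.cl d b → v r = 0 := by
    intro r hr
    rw [hv]
    exact if_neg hr
  have hv1 : ∀ r : St d F, r.1 ∈ GD.cl d b → v r = u (xs b s i r.1, r.2) := by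
    intro r hr
    rw [hv]
    exact if_pos hr
  have hmv : ∀ r : St d F, r.1 ∈ GD.cl d b → nbs (msk b u) (xs b s i r.1, r.2) = nbs v r := by
    intro r hr
    rw [nbs_xs hs]
    apply nbs_congr
    intro t ht
    have hcase : t.1 ∈ GD.cl d b ∨ ∃ j, t.1 j = 0 ∨ t.1 j = b := by
      rcases ht with ⟨h1, -⟩ | ⟨h1, -⟩
      · exact adj_cl hr h1
      · exact Or.inl (h1 ▸ hr)
    rcases hcase with h1 | ⟨j, h1⟩
    · rw [hv1 t h1]
      exact if_neg (hnd t.1 h1)
    · have h2 : t.1 ∉ GD.cl d b := by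
        rw [GD.mem_cl]
        intro h3
        have h4 := h3 j
        omega
      rw [hv0 t h2]
      exact if_pos ⟨j, xj_dvd h1⟩
  have hVe : ∀ r : St d F, r.1 ∈ GD.cl d b →
      Ve b P.p (xs b s i r.1, r.2) = Vp P.p r := by
    intro r hr
    unfold Ve rr
    rw [hrr r.1 hr]
  have hest := hP v G hG (fun x hx => hv0 x fun h => hx (mem_cl.2 h)) (by
    intro r hr hr1
    rw [mem_cl] at hr
    rw [← hmv r hr, hv1 r hr, ← hVe r hr]
    exact h _ (hnd r.1 hr) (hsz r.1 hr) (hone r.1 hr r.2 hr1))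
  -- the exact solution
  obtain ⟨e, he⟩ : ∃ e : ℝ, e = (∏ j, ((s j : ℤ) : ℝ)) * (-z) ^ (∑ j, (i j).toNat) :=
    ⟨_, rfl⟩
  have he0 : e ≠ 0 := by
    rw [he]
    refine mul_ne_zero (Finset.prod_ne_zero_iff.2 fun j _ => ?_)
      (pow_ne_zero _ (neg_ne_zero.2 hz.ne'))
    rcases hs j with h1 | h1 <;> rw [h1] <;> norm_num
  have hww : ∀ r ∈ GD.cl d b, ∀ f : F, ww b z P.p (xs b s i r, f) = e * P.p (r, f) := by
    intro r hr f
    have hm := hr
    rw [GD.mem_cl] at hm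
    unfold ww GD.ww
    beta_reduce
    rw [hrr r hr, he]
    have h1 : ∏ j, (((xs b s i r j).sign : ℤ) : ℝ) = ∏ j, ((s j : ℤ) : ℝ) := by
      refine Finset.prod_congr rfl fun j _ => ?_
      have h2 : (xs b s i r j).sign = s j := xj_sign hb (hs j) (hi j) (hm j).1
      rw [h2]
    have h3 : GD.lv b (xs b s i r) = ∑ j, (i j).toNat := by
      unfold GD.lv
      refine Finset.sum_congr rfl fun j _ => ?_
      have h4 := hm j
      have h2 : |xs b s i r j| / b = i j := (xj_dm hb (hs j) (hi j) (by omega) (by omega)).1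
      rw [h2]
    simp only [h1, h3]
  refine ⟨v (ce d o) / (P.p (ce d o) : ℂ) / (e : ℂ), ?_⟩
  intro r hr f
  have hpr : (P.p (r, f) : ℂ) ≠ 0 := by
    exact_mod_cast P.ne (x := (r, f)) hr
  have hec : (e : ℂ) ≠ 0 := by
    exact_mod_cast he0
  have hW : 0 < pm * z ^ (d * N) := mul_pos hpm (pow_pos hz _)
  have hl := hlow N hN (xs b s i r, f) (hnd r hr) (hsz r hr)
  have hid : u (xs b s i r, f) / (ww b z P.p (xs b s i r, f) : ℂ)
      - v (ce d o) / (P.p (ce d o) : ℂ) / (e : ℂ)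
      = (v (r, f) - v (ce d o) / (P.p (ce d o) : ℂ) * (P.p (r, f) : ℂ)) /
        (ww b z P.p (xs b s i r, f) : ℂ) := by
    rw [hww r hr f, hv1 (r, f) hr]
    push_cast
    rw [sub_div (u (xs b s i r, f)), mul_div_mul_right _ _ hpr]
  rw [hid, norm_div, Complex.norm_real, Real.norm_eq_abs]
  have h3 : 0 < |ww b z P.p (xs b s i r, f)| := lt_of_lt_of_le hW hl
  rw [div_le_div_iff₀ h3 hW]
  exact mul_le_mul (hest (r, f) (mem_cl.2 hr)) hl hW.le (by positivity)

theorem cell_ratio (hb : 3 ≤ b) (hz : 0 < z) (P : Prof d F b z) (o : F) {CM : ℝ}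
    (hC : 0 < CM) (hP : CellEst b o P.p CM) (pm : ℝ) (hpm : 0 < pm)
    (hlow : ∀ N : ℕ, 1 ≤ N → ∀ x : St d F, ¬ node b x → (∀ i, |x.1 i| < b * N) →
      pm * z ^ (d * N) ≤ |ww b z P.p x|)
    (N : ℕ) (hN : 1 ≤ N) (u : St d F → ℂ) (G : ℝ) (hG : 0 ≤ G)
    (h : ∀ x : St d F, ¬ node b x → (∀ i, |x.1 i| < b * N) → x ≠ ce d o →
      ‖(Ve b P.p x : ℂ) * u x - nbs (msk b u) x‖ ≤ G)
    (x y : St d F) (hx : ¬ node b x) (hy : ¬ node b y) (h1 : ∀ i, |x.1 i| < b * N)
    (e1 : ∀ i, x.1 i / b = y.1 i / b) :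
    ‖u x / (ww b z P.p x : ℂ) - u y / (ww b z P.p y : ℂ)‖ ≤
      2 * CM * G / (pm * z ^ (d * N)) := by
  have hx' : ∀ j, ¬ b ∣ x.1 j := fun j hj => hx ⟨j, hj⟩
  have hy' : ∀ j, ¬ b ∣ y.1 j := fun j hj => hy ⟨j, hj⟩
  have hX := fun j => xj_rep hb (hx' j)
  have hY := fun j => xj_rep hb (hy' j)
  have hS := fun j => same_cell hb (hx' j) (hy' j) (e1 j)
  have hiN : ∀ n : ℤ, |n| < b * N → |n| / b < N := by
    intro n hn
    apply Int.ediv_lt_of_lt_mul (by omega)
    rw [mul_comm]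
    exact hn
  obtain ⟨q, hq⟩ := cell_one hb hz P o hC hP pm hpm hlow N hN u G hG h (fun j => (x.1 j).sign)
    (fun j => |x.1 j| / b) (fun j => (hX j).1) (fun j => (hX j).2.1) (fun j => hiN _ (h1 j))
  have hqx := hq (fun j => |x.1 j| % b) (by
    rw [GD.mem_cl]
    intro j
    have h2 := (hX j).2.2.1
    have h3 := (hX j).2.2.2.1
    omega) x.2
  have hqy := hq (fun j => |y.1 j| % b) (by
    rw [GD.mem_cl]
    intro j
    have h2 := (hY j).2.2.1
    have h3 := (hY j).2.2.2.1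
    omega) y.2
  have ex : xs b (fun j => (x.1 j).sign) (fun j => |x.1 j| / b) (fun j => |x.1 j| % b) = x.1 :=
    funext fun j => (hX j).2.2.2.2
  have ey : xs b (fun j => (x.1 j).sign) (fun j => |x.1 j| / b) (fun j => |y.1 j| % b) = y.1 := by
    funext j
    have h2 : xj b (x.1 j).sign (|x.1 j| / b) (|y.1 j| % b) = y.1 j := by
      rw [(hS j).1, (hS j).2]
      exact (hY j).2.2.2.2
    exact h2
  rw [ex] at hqx
  rw [ey] at hqy
  have h3 : u x / (ww b z P.p x : ℂ) - u y / (ww b z P.p y : ℂ) =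
      (u x / (ww b z P.p x : ℂ) - q) - (u y / (ww b z P.p y : ℂ) - q) := by ring
  rw [h3]
  refine (norm_sub_le _ _).trans ?_
  have h4 : 2 * CM * G / (pm * z ^ (d * N)) =
      CM * G / (pm * z ^ (d * N)) + CM * G / (pm * z ^ (d * N)) := by ring
  rw [h4]
  exact add_le_add hqx hqy

/-! ### Across the nodes -/

private theorem cross_aux (a1 a2 : ℂ) (w1 w2 S L : ℝ) (h : w1 = -w2) (hL : 0 < L)
    (hw : L ≤ |w1|) (hs : ‖a1 + a2‖ ≤ S) : ‖a1 / (w1 : ℂ) - a2 / (w2 : ℂ)‖ ≤ S / L := by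
  have hw2 : w2 = -w1 := by linarith
  have hne : (w1 : ℂ) ≠ 0 := by
    intro h0
    have h1 : w1 = 0 := by exact_mod_cast h0
    rw [h1, abs_zero] at hw
    linarith
  have h1 : a1 / (w1 : ℂ) - a2 / (w2 : ℂ) = (a1 + a2) / (w1 : ℂ) := by
    rw [hw2]
    push_cast
    rw [div_neg, sub_neg_eq_add, add_div]
  rw [h1, norm_div, Complex.norm_real, Real.norm_eq_abs]
  exact div_le_div₀ (le_trans (norm_nonneg _) hs) hs hL hw

private theorem cross_nd1 (hb : 3 ≤ b) {n : ℤ} (h : b ∣ n) : ¬ b ∣ n + 1 := by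
  intro h1
  have h2 : b ∣ 1 := by
    have := Int.dvd_sub h1 h
    rwa [add_sub_cancel_left] at this
  have := Int.le_of_dvd one_pos h2
  omega

private theorem cross_sum (u : St d F → ℂ) (x : St d F) (i : Fin d) (K η : ℝ)
    (hη : 0 ≤ η) (h : ‖Complex.I * u x - nbs u x‖ ≤ K) (h0 : ‖u x‖ ≤ η)
    (hj : ∀ j, j ≠ i → ∀ t : ℤ, ‖u (shf x j t)‖ ≤ η) (hf : ∀ g, ‖u (x.1, g)‖ ≤ η) :
    ‖u (shf x i 1) + u (shf x i (-1))‖ ≤ K + dn d F * η := by
  classical
  set R : ℂ := ∑ j ∈ univ.erase i, (u (shf x j 1) + u (shf x j (-1))) with hR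
  set T : ℂ := tb (fun g => u (x.1, g)) x.2 with hT
  have h1 : nbs u x = (u (shf x i 1) + u (shf x i (-1))) + R + T := by
    unfold nbs GD.nbs
    rw [hR, Finset.add_sum_erase univ (fun j => u (shf x j 1) + u (shf x j (-1))) (mem_univ i)]
    rfl
  have hd : 1 ≤ d := by have := i.isLt; omega
  have h2 : ‖R‖ ≤ (2 * d - 2) * η := by
    calc ‖R‖ ≤ ∑ j ∈ univ.erase i, (2 * η) := by
          refine norm_sum_le_of_le _ fun j hj' => ?_
          have hne : j ≠ i := (mem_erase.mp hj').1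
          have := norm_add_le (u (shf x j 1)) (u (shf x j (-1)))
          have := hj j hne 1
          have := hj j hne (-1)
          linarith
      _ = (2 * d - 2) * η := by
          rw [sum_const, card_erase_of_mem (mem_univ i), card_univ, Fintype.card_fin,
            nsmul_eq_mul, Nat.cast_sub hd]
          push_cast
          ring
  have h2' : ‖T‖ ≤ Fintype.card F * η := by
    rw [hT]
    unfold tb
    calc ‖∑ g, (if Thin.B x.2 g then u (x.1, g) else 0)‖
        ≤ ∑ _g : F, η := by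
          refine norm_sum_le_of_le _ fun g _ => ?_
          split_ifs with hg
          · exact hf g
          · rw [norm_zero]; exact hη
      _ = Fintype.card F * η := by
          rw [Finset.sum_const, nsmul_eq_mul, Finset.card_univ]
  have h3 : u (shf x i 1) + u (shf x i (-1)) =
      Complex.I * u x - (Complex.I * u x - nbs u x) - R - T := by
    rw [h1]; ring
  rw [h3]
  have h4 := norm_sub_le (Complex.I * u x - (Complex.I * u x - nbs u x) - R) T
  have h4' := norm_sub_le (Complex.I * u x - (Complex.I * u x - nbs u x)) R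
  have h5 := norm_sub_le (Complex.I * u x) (Complex.I * u x - nbs u x)
  have h6 : ‖Complex.I * u x‖ = ‖u x‖ := by rw [norm_mul, Complex.norm_I, one_mul]
  unfold dn
  nlinarith

theorem cross_ratio (hb : 3 ≤ b) (hz : 0 < z) (P : Prof d F b z) (pm : ℝ)
    (hpm : 0 < pm)
    (hlow : ∀ N : ℕ, 1 ≤ N → ∀ x : St d F, ¬ node b x → (∀ i, |x.1 i| < b * N) →
      pm * z ^ (d * N) ≤ |ww b z P.p x|)
    (N : ℕ) (hN : 1 ≤ N) (u : St d F → ℂ) (K η : ℝ) (hη : 0 ≤ η)
    (hu : ∀ x, node b x → ‖u x‖ ≤ η)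
    (h : ∀ x, node b x → (∀ i, |x.1 i| < b * N) → ‖Complex.I * u x - nbs u x‖ ≤ K)
    (x : St d F) (i : Fin d) (h1 : b ∣ x.1 i) (h2 : ∀ j, j ≠ i → ¬ b ∣ x.1 j)
    (h3 : |x.1 i + 1| < b * N) (h4 : |x.1 i - 1| < b * N) (h5 : ∀ j, j ≠ i → |x.1 j| < b * N) :
    ‖u (shf x i 1) / (ww b z P.p (shf x i 1) : ℂ) -
      u (shf x i (-1)) / (ww b z P.p (shf x i (-1)) : ℂ)‖ ≤
      (K + dn d F * η) / (pm * z ^ (d * N)) := by
  have hx : node b x := ⟨i, h1⟩
  have h6 : ∀ j, |x.1 j| < b * N := by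
    intro j
    by_cases hj : j = i
    · subst hj
      rw [abs_lt] at h3 h4 ⊢
      constructor <;> linarith [h3.1, h3.2, h4.1, h4.2]
    · exact h5 j hj
  have he := h x hx h6
  refine cross_aux _ _ _ _ _ _ (ww_cross hb P h1) (by positivity) ?_ ?_
  · refine hlow N hN (shf x i 1) ?_ ?_
    · rintro ⟨j, hj⟩
      have hj' : b ∣ GD.sh x.1 i 1 j := hj
      by_cases hji : j = i
      · subst hji
        rw [GD.sh_same] at hj'
        exact cross_nd1 hb h1 hj'
      · rw [GD.sh_ne x.1 hji] at hj'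
        exact h2 j hji hj'
    · intro j
      show |GD.sh x.1 i 1 j| < b * N
      by_cases hji : j = i
      · subst hji
        rw [GD.sh_same]; exact h3
      · rw [GD.sh_ne x.1 hji]; exact h5 j hji
  · refine cross_sum u x i K η hη he (hu x hx) (fun j hj t => hu _ ⟨i, ?_⟩)
      fun g => hu (x.1, g) hx
    show b ∣ GD.sh x.1 j t i
    rw [GD.sh_ne x.1 (Ne.symm hj)]
    exact h1

end Pool.Agent.Lib.MP_562b47_mp.SX
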