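import Pool.Agent.Lib.MP_562b47_mp.BG.Walk
import Pool.Agent.Lib.MP_562b47_mp.SX.Ratio

/-!
MP_562b47, slabs: the a priori estimate with absorbing nodes.
-/

open Finset

set_option linter.unusedSectionVars false

namespace Pool.Agent.Lib.MP_562b47_mp.SX

variable {d : ℕ} {F : Type} [Fintype F] [DecidableEq F] [Thin F] {b : ℤ} {z : ℝ}

/-- the effective diagonal with absorbing nodes -/
noncomputable def Wi (b : ℤ) (p : St d F → ℝ) (x : St d F) : ℂ :=
  if node b x then Complex.I else (Ve b p x : ℂ)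

private theorem APri_div {b n : ℤ} (hb : 0 < b) (h : ¬ b ∣ n + 1) : (n + 1) / b = n / b := by
  have h1 : n % b + 1 < b := by
    have h2 := Int.emod_lt_of_pos n hb
    rcases lt_or_eq_of_le (Int.add_one_le_iff.2 h2) with h3 | h3
    · exact h3
    · exfalso
      apply h
      refine ⟨n / b + 1, ?_⟩
      have h4 := Int.emod_add_mul_ediv n b
      linarith
  have h2 := Int.emod_nonneg n hb.ne'
  have h4 := Int.emod_add_mul_ediv n b
  have h5 : n % b + 1 + b * (n / b) = n + 1 ∧ 0 ≤ n % b + 1 ∧ n % b + 1 < b :=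
    ⟨by linarith, by linarith, h1⟩
  exact ((Int.ediv_emod_unique hb).2 h5).1

private theorem APri_not_dvd {b : ℤ} (hb : 3 ≤ b) : ¬ b ∣ 1 := by
  intro h
  have := Int.le_of_dvd one_pos h
  omega

/-- the node values -/
private theorem APri_node {b m : ℤ} {o : F} {p : St d F → ℝ} (u : St d F → ℂ) (K X : ℝ)
    (hK : 0 ≤ K) (hm : 1 ≤ m) (hX : ∀ x, ‖u x‖ ≤ X) (h0 : ∀ x, x ∉ inn d m o → u x = 0)
    (h : ∀ x ∈ inn d m o, ‖Wi b p x * u x - nbs u x‖ ≤ K) (x : St d F) (hx : node b x) :
    ‖u x‖ ≤ Real.sqrt (Fintype.card F * (2 * m) ^ d * X * K) := by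
  have hX0 : 0 ≤ X := (norm_nonneg _).trans (hX x)
  by_cases hxm : x ∈ inn d m o
  · apply Real.le_sqrt_of_sq_le
    have h1 := energy (inn d m o) (Wi b p) u h0
    have h2 : (∑ x ∈ inn d m o, (starRingEnd ℂ) (u x) * (Wi b p x * u x - nbs u x)).im ≤
        Fintype.card F * (2 * m) ^ d * X * K := by
      refine (Complex.im_le_norm _).trans ((norm_sum_le _ _).trans ?_)
      have h3 : ∀ y ∈ inn d m o,
          ‖(starRingEnd ℂ) (u y) * (Wi b p y * u y - nbs u y)‖ ≤ X * K := by
        intro y hy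
        rw [norm_mul, RCLike.norm_conj]
        exact mul_le_mul (hX y) (h y hy) (norm_nonneg _) hX0
      refine (Finset.sum_le_card_nsmul _ _ _ h3).trans ?_
      rw [nsmul_eq_mul, mul_assoc]
      exact mul_le_mul_of_nonneg_right (card_inn_le (by omega) o) (mul_nonneg hX0 hK)
    have h3 : ∀ y ∈ inn d m o, 0 ≤ (Wi b p y).im * ‖u y‖ ^ 2 := by
      intro y _
      refine mul_nonneg ?_ (sq_nonneg _)
      unfold Wi
      split_ifs
      · simp
      · simp
    have h4 := Finset.single_le_sum h3 hxm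
    have h5 : (Wi b p x).im = 1 := by
      unfold Wi
      rw [if_pos hx]
      simp
    rw [h5, one_mul] at h4
    linarith
  · rw [h0 x hxm, norm_zero]
    exact Real.sqrt_nonneg _

theorem apri (hd : 1 ≤ d) (hb : 3 ≤ b) (hz : 0 < z) (hz1 : z < 1) (P : Prof d F b z) (o : F)
    {CM : ℝ} (hC : 0 < CM) (hP : CellEst b o P.p CM) :
    ∃ C : ℝ, 1 ≤ C ∧ ∀ N : ℕ, 1 ≤ N → ∀ (u : St d F → ℂ) (K : ℝ), 0 ≤ K →
      (∀ x, x ∉ inn d (b * N) o → u x = 0) →
      (∀ x ∈ inn d (b * N) o, ‖Wi b P.p x * u x - nbs u x‖ ≤ K) →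
      ∀ x, ‖u x‖ ≤ C * (N : ℝ) ^ (d + 2) * (z⁻¹) ^ (2 * d * N) * K := by
  classical
  haveI : Nonempty F := ⟨o⟩
  obtain ⟨pm, hpm, hlow⟩ := ww_lower hb hz hz1 P
  obtain ⟨pM, hpM, hup, -⟩ := ww_upper hb hz hz1 P
  have hbr : (3 : ℝ) ≤ b := by exact_mod_cast hb
  have hd1 : (1 : ℝ) ≤ d := by exact_mod_cast hd
  have hd0 : (0 : ℝ) ≤ d := Nat.cast_nonneg d
  set D : ℝ := dn d F with hD
  have hD1 : 1 ≤ D := one_le_dn
  have hD0 : 0 ≤ D := by linarith
  set f : ℝ := (Fintype.card F : ℝ) with hf
  have hf1 : 1 ≤ f := by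
    rw [hf]
    exact_mod_cast Fintype.card_pos (α := F)
  set A : ℝ := (2 * d + 1) * b * pM * (2 * CM + 1) / pm with hA
  have hA0 : 0 ≤ A := by
    rw [hA]
    have : (0 : ℝ) < b := by linarith
    positivity
  have hb2 : (1 : ℝ) ≤ (2 * (b : ℝ)) ^ d := one_le_pow₀ (by linarith)
  have hdA : 0 ≤ D * A := by positivity
  refine ⟨3 * (f * (2 * (b : ℝ)) ^ d) * (D * A + 1) ^ 2, ?_, ?_⟩
  · have h1 : (1 : ℝ) ≤ (D * A + 1) ^ 2 := by nlinarith
    have h2 : (1 : ℝ) ≤ 3 * (f * (2 * (b : ℝ)) ^ d) := by nlinarith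
    calc (1 : ℝ) = 1 * 1 := by ring
      _ ≤ 3 * (f * (2 * (b : ℝ)) ^ d) * (D * A + 1) ^ 2 :=
        mul_le_mul h2 h1 zero_le_one (by positivity)
  intro N hN u K hK h0 h
  have hNr : (1 : ℝ) ≤ N := by exact_mod_cast hN
  have hNz : (1 : ℤ) ≤ N := by exact_mod_cast hN
  have hzi : 1 ≤ z⁻¹ := (one_le_inv₀ hz).2 hz1.le
  set m : ℤ := b * N with hm
  have hm3 : 3 ≤ m := by nlinarith
  have hmr : (m : ℝ) = b * N := by rw [hm]; push_cast; ring
  have hone : |(1 : ℤ)| < m := by rw [abs_one]; omega
  -- the maximum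
  have hne : (inn d m o).Nonempty := by
    refine ⟨(0, o), mem_inn.2 ⟨?_, fun i => ?_⟩⟩
    · intro h1
      have := congrFun (congrArg Prod.fst h1) ⟨0, hd⟩
      simp [ce] at this
    · simp only [Pi.zero_apply, abs_zero]
      omega
  obtain ⟨xs, hxs, hmax⟩ := Finset.exists_max_image (inn d m o) (fun x => ‖u x‖) hne
  set X : ℝ := ‖u xs‖ with hXd
  have hX0 : 0 ≤ X := norm_nonneg _
  have hX : ∀ x, ‖u x‖ ≤ X := by
    intro x
    by_cases hx : x ∈ inn d m o
    · exact hmax x hx
    · rw [h0 x hx, norm_zero]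
      exact hX0
  set V : ℝ := f * (2 * m) ^ d with hV
  have hV0 : 0 ≤ V := by
    have : (3 : ℝ) ≤ m := by exact_mod_cast hm3
    positivity
  set η : ℝ := Real.sqrt (V * X * K) with hη
  have hη0 : 0 ≤ η := Real.sqrt_nonneg _
  have hη2 : η ^ 2 = V * X * K := Real.sq_sqrt (by positivity)
  have hnode : ∀ x, node b x → ‖u x‖ ≤ η := fun x hx =>
    APri_node u K X hK (by omega) hX h0 h x hx
  have hzN : 0 < z ^ (d * N) := pow_pos hz _
  -- equations
  have hG : ∀ x : St d F, ¬ node b x → (∀ i, |x.1 i| < b * N) → x ≠ ce d o →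
      ‖(Ve b P.p x : ℂ) * u x - nbs (msk b u) x‖ ≤ K + D * η := by
    intro x hx h1 h3
    have h4 := h x (mem_inn.2 ⟨h3, h1⟩)
    have h5 : Wi b P.p x = (Ve b P.p x : ℂ) := by
      unfold Wi
      rw [if_neg hx]
    rw [h5] at h4
    have h6 : ∀ y, ‖u y - msk b u y‖ ≤ η := by
      intro y
      unfold msk
      split_ifs with hy
      · rw [sub_zero]
        exact hnode y hy
      · rw [sub_self, norm_zero]
        exact hη0
    have h7 : ‖nbs u x - nbs (msk b u) x‖ ≤ D * η := by
      rw [← nbs_sub]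
      exact norm_nbs_le _ _ hη0 fun y _ => h6 y
    calc ‖(Ve b P.p x : ℂ) * u x - nbs (msk b u) x‖ =
        ‖((Ve b P.p x : ℂ) * u x - nbs u x) + (nbs u x - nbs (msk b u) x)‖ := by
          congr 1
          ring
      _ ≤ ‖(Ve b P.p x : ℂ) * u x - nbs u x‖ + ‖nbs u x - nbs (msk b u) x‖ := norm_add_le _ _
      _ ≤ K + D * η := by linarith
  have hI : ∀ x : St d F, node b x → (∀ i, |x.1 i| < b * N) →
      ‖Complex.I * u x - nbs u x‖ ≤ K := by
    intro x hx h1
    have h3 : x ≠ ce d o := by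
      rintro rfl
      exact one_node hb o hx
    have h4 := h x (mem_inn.2 ⟨h3, h1⟩)
    have h5 : Wi b P.p x = Complex.I := by
      unfold Wi
      rw [if_pos hx]
    rwa [h5] at h4
  -- the step
  set ε : ℝ := (2 * CM + 1) * (K + D * η) / (pm * z ^ (d * N)) with hε
  have hden : 0 < pm * z ^ (d * N) := mul_pos hpm hzN
  have hG0 : 0 ≤ K + D * η := by positivity
  have hε0 : 0 ≤ ε := by
    rw [hε]
    positivity
  have hcell : ∀ x y : St d F, ¬ node b x → ¬ node b y → (∀ i, |x.1 i| < b * N) →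
      (∀ i, x.1 i / b = y.1 i / b) →
      ‖u x / (ww b z P.p x : ℂ) - u y / (ww b z P.p y : ℂ)‖ ≤ ε := by
    intro x y hx hy h1 e1
    refine (cell_ratio hb hz P o hC hP pm hpm hlow N hN u (K + D * η) hG0 hG x y hx hy
      h1 e1).trans ?_
    rw [hε]
    refine div_le_div_of_nonneg_right ?_ hden.le
    nlinarith
  have hcr : ∀ (x : St d F) (i : Fin d), b ∣ x.1 i → (∀ j, j ≠ i → ¬ b ∣ x.1 j) →
      |x.1 i + 1| < b * N → |x.1 i - 1| < b * N → (∀ j, j ≠ i → |x.1 j| < b * N) →
      ‖u (shf x i 1) / (ww b z P.p (shf x i 1) : ℂ) -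
        u (shf x i (-1)) / (ww b z P.p (shf x i (-1)) : ℂ)‖ ≤ ε := by
    intro x i h1 h2 h3 h4 h5
    refine (cross_ratio hb hz P pm hpm hlow N hN u K η hη0 hnode hI x i h1 h2 h3 h4
      h5).trans ?_
    rw [hε]
    refine div_le_div_of_nonneg_right ?_ hden.le
    have h6 : 0 ≤ 2 * CM * (K + D * η) := by positivity
    linarith
  -- walks
  have hb0 : 0 < b := by omega
  have hupd : ∀ (w : Fin d → ℤ) (g : F) (j : Fin d), (∀ i, i ≠ j → ¬ b ∣ w i) →
      ∀ n : ℤ, ¬ b ∣ n → ¬ node b ((Function.update w j n, g) : St d F) := by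
    rintro w g j hw n hn ⟨i, hi⟩
    have hi' : b ∣ Function.update w j n i := hi
    by_cases hij : i = j
    · subst hij
      rw [Function.update_self] at hi'
      exact hn hi'
    · rw [Function.update_of_ne hij] at hi'
      exact hw i hij hi'
  have hupm : ∀ (w : Fin d → ℤ) (j : Fin d), (∀ i, i ≠ j → |w i| < b * N) → ∀ n : ℤ,
      |n| < m → ∀ i, |Function.update w j n i| < b * N := by
    intro w j hw n hn i
    by_cases hij : i = j
    · subst hij
      rw [Function.update_self]
      exact hn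
    · rw [Function.update_of_ne hij]
      exact hw i hij
  have hwalk : ∀ (w : Fin d → ℤ) (g : F) (j : Fin d), (∀ i, i ≠ j → ¬ b ∣ w i) →
      (∀ i, i ≠ j → |w i| < b * N) → ∀ n : ℤ, ¬ b ∣ n → |n| < m →
      ‖u (Function.update w j n, g) / (ww b z P.p (Function.update w j n, g) : ℂ) -
        u (Function.update w j 1, g) / (ww b z P.p (Function.update w j 1, g) : ℂ)‖ ≤
        2 * m * ε := by
    intro w g j hw hwm n hn hnm
    refine BG.walk hb hm3 (fun n => u (Function.update w j n, g) /
      (ww b z P.p (Function.update w j n, g) : ℂ)) ε hε0 ?_ ?_ n hn hnm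
    · intro k hk hk1 hkm hk1m
      refine hcell (Function.update w j (k + 1), g) (Function.update w j k, g)
        (hupd w g j hw _ hk1) (hupd w g j hw _ hk) (hupm w j hwm _ hk1m) fun i => ?_
      show Function.update w j (k + 1) i / b = Function.update w j k i / b
      by_cases hij : i = j
      · subst hij
        rw [Function.update_self, Function.update_self]
        exact APri_div hb0 hk1
      · rw [Function.update_of_ne hij, Function.update_of_ne hij]
    · intro k hk hk1 hk2
      have e1 : shf ((Function.update w j k, g) : St d F) j 1 = (Function.update w j (k + 1), g) := by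
        unfold shf GD.sh
        simp only
        rw [Function.update_idem, Function.update_self]
      have e2 : shf ((Function.update w j k, g) : St d F) j (-1) =
          (Function.update w j (k - 1), g) := by
        unfold shf GD.sh
        simp only
        rw [Function.update_idem, Function.update_self]
        rfl
      have h1 := hcr (Function.update w j k, g) j
        (by show b ∣ Function.update w j k j; rw [Function.update_self]; exact hk)
        (fun i hij => by
          show ¬ b ∣ Function.update w j k i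
          rw [Function.update_of_ne hij]; exact hw i hij)
        (by show |Function.update w j k j + 1| < _; rw [Function.update_self]; exact hk1)
        (by show |Function.update w j k j - 1| < _; rw [Function.update_self]; exact hk2)
        (fun i hij => by
          show |Function.update w j k i| < _
          rw [Function.update_of_ne hij]; exact hwm i hij)
      rw [e1, e2] at h1
      exact h1
  have hu11 : u (ce d o) = 0 := by
    apply h0
    rw [mem_inn]
    rintro ⟨h1, -⟩
    exact h1 rfl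
  have hmr0 : (0 : ℝ) < m := by
    have : (3 : ℝ) ≤ m := by exact_mod_cast hm3
    linarith
  have hcol : ∀ g : F, ‖u (1, g) / (ww b z P.p (1, g) : ℂ)‖ ≤ ε := by
    intro g
    have h1 := hcell (1, g) (ce d o) (one_node hb g) (one_node hb o) (fun i => hone)
      (fun i => rfl)
    rw [hu11, zero_div, sub_zero] at h1
    exact h1
  have hall : ∀ x : St d F, ¬ node b x → (∀ i, |x.1 i| < m) → ∀ s : Finset (Fin d),
      ‖u (fun i => if i ∈ s then x.1 i else 1, x.2) /
        (ww b z P.p (fun i => if i ∈ s then x.1 i else 1, x.2) : ℂ)‖ ≤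
        s.card * (2 * m * ε) + ε := by
    intro x hx hxm s
    have hxd : ∀ i, ¬ b ∣ x.1 i := fun i hi => hx ⟨i, hi⟩
    induction s using Finset.induction_on with
    | empty =>
      have h1 : (fun i => if i ∈ (∅ : Finset (Fin d)) then x.1 i else 1) =
          (1 : Fin d → ℤ) := by
        funext i
        simp
      rw [h1, Finset.card_empty]
      have := hcol x.2
      simpa using this
    | insert j s hj ih =>
      have e1 : (fun i => if i ∈ insert j s then x.1 i else 1) =
          Function.update (fun i => if i ∈ s then x.1 i else 1) j (x.1 j) := by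
        funext i
        by_cases hij : i = j
        · subst hij
          simp
        · rw [Function.update_of_ne hij]
          simp [hij]
      have e2 : (fun i => if i ∈ s then x.1 i else 1) =
          Function.update (fun i => if i ∈ s then x.1 i else 1) j 1 := by
        funext i
        by_cases hij : i = j
        · subst hij
          simp [hj]
        · rw [Function.update_of_ne hij]
      have h1 := hwalk (fun i => if i ∈ s then x.1 i else 1) x.2 j
        (fun i _ => by
          show ¬ b ∣ (if i ∈ s then x.1 i else 1)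
          split_ifs
          · exact hxd i
          · exact APri_not_dvd hb)
        (fun i _ => by
          show |if i ∈ s then x.1 i else 1| < b * N
          split_ifs
          · exact hxm i
          · exact hone) (x.1 j) (hxd j) (hxm j)
      rw [← e1, ← e2] at h1
      rw [Finset.card_insert_of_notMem hj]
      push_cast
      have h2 : u (fun i => if i ∈ insert j s then x.1 i else 1, x.2) /
          (ww b z P.p (fun i => if i ∈ insert j s then x.1 i else 1, x.2) : ℂ) =
          (u (fun i => if i ∈ insert j s then x.1 i else 1, x.2) /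
          (ww b z P.p (fun i => if i ∈ insert j s then x.1 i else 1, x.2) : ℂ) -
          u (fun i => if i ∈ s then x.1 i else 1, x.2) /
          (ww b z P.p (fun i => if i ∈ s then x.1 i else 1, x.2) : ℂ)) +
          u (fun i => if i ∈ s then x.1 i else 1, x.2) /
          (ww b z P.p (fun i => if i ∈ s then x.1 i else 1, x.2) : ℂ) := by
        rw [sub_add_cancel]
      rw [h2]
      refine (norm_add_le _ _).trans ?_
      linarith
  -- the bound off the nodes
  have hmr1 : (1 : ℝ) ≤ m := by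
    have : (3 : ℝ) ≤ m := by exact_mod_cast hm3
    linarith
  have hoff : ∀ x, ¬ node b x → ‖u x‖ ≤ (2 * d + 1) * m * ε * pM := by
    intro x hx
    by_cases hxm : x ∈ inn d m o
    · obtain ⟨-, h1⟩ := mem_inn.1 hxm
      have g3 := hall x hx h1 univ
      have g4 : (fun i => if i ∈ (univ : Finset (Fin d)) then x.1 i else 1) = x.1 := by
        funext i
        simp
      rw [g4, Finset.card_univ, Fintype.card_fin] at g3
      have hw0 : ww b z P.p x ≠ 0 := ww_ne hb hz P hx
      have g5 : ‖u x‖ = ‖u x / (ww b z P.p x : ℂ)‖ * |ww b z P.p x| := by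
        rw [norm_div, Complex.norm_real, Real.norm_eq_abs,
          div_mul_cancel₀ _ (abs_ne_zero.2 hw0)]
      rw [g5]
      have g6 : d * (2 * m * ε) + ε ≤ (2 * d + 1) * m * ε := by
        have : ε ≤ m * ε := le_mul_of_one_le_left hε0 hmr1
        linarith
      calc ‖u x / (ww b z P.p x : ℂ)‖ * |ww b z P.p x| ≤ ((2 * d + 1) * m * ε) * pM :=
            mul_le_mul (g3.trans g6) (hup x) (abs_nonneg _) (by positivity)
        _ = (2 * d + 1) * m * ε * pM := by ring
    · rw [h0 x hxm, norm_zero]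
      positivity
  -- M₁
  set Q : ℝ := (N : ℝ) * (z⁻¹) ^ (d * N) with hQ
  have hQ1 : 1 ≤ Q := by
    rw [hQ]
    calc (1 : ℝ) = 1 * 1 := by ring
      _ ≤ N * (z⁻¹) ^ (d * N) := mul_le_mul hNr (one_le_pow₀ hzi) zero_le_one (by linarith)
  have hoffQ : (2 * d + 1) * m * ε * pM = A * Q * (K + D * η) := by
    rw [hε, hA, hQ, hmr, inv_pow]
    field_simp
  set M : ℝ := (D * A + 1) * Q with hM
  have hAQ : 0 ≤ A * Q := mul_nonneg hA0 (by linarith)
  have hM1 : 1 ≤ M := by
    rw [hM]
    nlinarith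
  have hXM : X ≤ M * (K + η) := by
    by_cases hx : node b xs
    · have h1 := hnode xs hx
      calc X ≤ η := h1
        _ ≤ K + η := by linarith
        _ ≤ M * (K + η) := le_mul_of_one_le_left (by linarith) hM1
    · have h1 := hoff xs hx
      rw [hoffQ] at h1
      have h2 : M * (K + η) = A * Q * (K + D * η) +
          ((D - 1) * (A * Q) * K + Q * K + Q * η) := by
        rw [hM]
        ring
      have h3 : 0 ≤ (D - 1) * (A * Q) * K + Q * K + Q * η := by
        have h4 : (0 : ℝ) ≤ D - 1 := by linarith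
        positivity
      linarith
  -- AM-GM
  have hAG : 2 * (M * η) ≤ X + M ^ 2 * V * K := by
    have h1 : 0 ≤ M ^ 2 * V * K := by positivity
    have h2 : (2 * (M * η)) ^ 2 ≤ (X + M ^ 2 * V * K) ^ 2 := by
      have h3 : (2 * (M * η)) ^ 2 = 4 * (X * (M ^ 2 * V * K)) := by
        calc (2 * (M * η)) ^ 2 = 4 * M ^ 2 * η ^ 2 := by ring
          _ = 4 * (X * (M ^ 2 * V * K)) := by rw [hη2]; ring
      have h4 : (X + M ^ 2 * V * K) ^ 2 - 4 * (X * (M ^ 2 * V * K)) =
          (X - M ^ 2 * V * K) ^ 2 := by ring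
      have h5 := sq_nonneg (X - M ^ 2 * V * K)
      rw [h3]
      linarith
    exact (pow_le_pow_iff_left₀ (by positivity) (by positivity) two_ne_zero).1 h2
  have hfin : X ≤ (2 + V) * M ^ 2 * K := by
    have h1 : M * K ≤ M ^ 2 * K := by
      refine mul_le_mul_of_nonneg_right ?_ hK
      calc M = 1 * M := (one_mul M).symm
        _ ≤ M * M := mul_le_mul_of_nonneg_right hM1 (by linarith)
        _ = M ^ 2 := (sq M).symm
    have h2 : (2 + V) * M ^ 2 * K = 2 * (M ^ 2 * K) + M ^ 2 * V * K := by ring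
    have h3 : M * (K + η) = M * K + M * η := by ring
    linarith
  have hV2 : 2 + V ≤ 3 * (f * (2 * (b : ℝ)) ^ d) * (N : ℝ) ^ d := by
    have h1 : V = f * (2 * (b : ℝ)) ^ d * (N : ℝ) ^ d := by
      rw [hV, hmr, mul_assoc f, ← mul_pow]
      ring
    have h2 : (1 : ℝ) ≤ f * (2 * (b : ℝ)) ^ d * (N : ℝ) ^ d := by
      have h3 : (1 : ℝ) ≤ f * (2 * (b : ℝ)) ^ d := by
        calc (1 : ℝ) = 1 * 1 := by ring
          _ ≤ f * (2 * (b : ℝ)) ^ d := mul_le_mul hf1 hb2 zero_le_one (by linarith)
      calc (1 : ℝ) = 1 * 1 := by ring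
        _ ≤ f * (2 * (b : ℝ)) ^ d * (N : ℝ) ^ d :=
          mul_le_mul h3 (one_le_pow₀ hNr) zero_le_one (by linarith)
    rw [h1]
    linarith
  intro x
  calc ‖u x‖ ≤ X := hX x
    _ ≤ (2 + V) * M ^ 2 * K := hfin
    _ ≤ (3 * (f * (2 * (b : ℝ)) ^ d) * (N : ℝ) ^ d) * M ^ 2 * K := by gcongr
    _ = 3 * (f * (2 * (b : ℝ)) ^ d) * (D * A + 1) ^ 2 * (N : ℝ) ^ (d + 2) *
          (z⁻¹) ^ (2 * d * N) * K := by
        rw [hM, hQ]
        have : (z⁻¹) ^ (2 * d * N) = ((z⁻¹) ^ (d * N)) ^ 2 := by
          rw [← pow_mul]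
          congr 1
          ring
        rw [this]
        ring

end Pool.Agent.Lib.MP_562b47_mp.SX
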