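import Pool.Agent.Lib.MP_562b47_mp.SX.RealN
import Pool.Agent.Lib.MP_562b47_mp.SX.Win
import Pool.Agent.Lib.MP_562b47_mp.GD.Gad

/-!
MP_562b47, slabs: the gadget.  `kap` is a constant in the diagonal `2 d + kap - E + V`.
-/

open Finset

set_option linter.unusedSectionVars false

namespace Pool.Agent.Lib.MP_562b47_mp.SX

variable {d : ℕ} {F : Type} [Fintype F] [DecidableEq F] [Thin F]

/-- the port sites -/
noncomputable def prt (d : ℕ) (F : Type) [Fintype F] (m : ℤ) : Finset (St d F) :=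
  GD.prt d m ×ˢ univ

/-- the coupling to a port site -/
noncomputable def ph0 (m : ℤ) (o : F) (W : St d F → ℝ) (x : St d F) : ℝ :=
  -∑ y ∈ inn d m o, if adj x y then SV m o W y else 0

/-- the resonant value of the effective diagonal at the centre -/
noncomputable def ze0 (m : ℤ) (o : F) (W : St d F → ℝ) : ℝ :=
  ∑ y ∈ inn d m o, if adj (ce d o) y then SV m o W y else 0

theorem sum2d (T : Finset (St d F)) (f : St d F → ℝ) (x : St d F) :
    ∑ y ∈ T, (if adj x y then f y else 0) = nbs (fun y => if y ∈ T then f y else 0) x := by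
  have h := sum_adj (R := ℝ) T (fun y => if y ∈ T then f y else 0)
    (fun y hy => by simp [hy]) x 1
  rw [one_mul] at h
  rw [← h]
  refine Finset.sum_congr rfl fun y hy => ?_
  by_cases ha : adj x y
  · simp [ha, hy]
  · simp [ha]

theorem mem_gprt {m : ℤ} {x : Fin d → ℤ} :
    x ∈ GD.prt d m ↔ (∀ i, -m ≤ x i ∧ x i ≤ m) ∧ x ∉ GD.qi d m := by
  simp [GD.prt, Fintype.mem_piFinset, Finset.mem_Icc]

theorem mem_prt {m : ℤ} {x : St d F} :
    x ∈ prt d F m ↔ (∀ i, -m ≤ x.1 i ∧ x.1 i ≤ m) ∧ x.1 ∉ GD.qi d m := by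
  unfold prt
  rw [mem_product]
  simp only [mem_univ, and_true]
  exact mem_gprt

private theorem card_gprt {b : ℤ} (hb : 3 ≤ b) {N : ℕ} (hN : 1 ≤ N) :
    ((GD.prt d (b * N)).card : ℝ) ≤ (2 * (b : ℝ) + 1) ^ d * (N : ℝ) ^ d := by
  have hN' : (1 : ℤ) ≤ N := by exact_mod_cast hN
  have hm : (3 : ℤ) ≤ b * N := by nlinarith
  have h1 : (GD.prt d (b * N)).card ≤
      (Fintype.piFinset fun _ : Fin d => Icc (-(b * N)) (b * N)).card :=
    Finset.card_le_card Finset.sdiff_subset
  have h2 : (Fintype.piFinset fun _ : Fin d => Icc (-(b * N)) (b * N)).card =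
      (b * N + 1 - -(b * N)).toNat ^ d := by
    simp
  have h3 : (((b * N + 1 - -(b * N)).toNat : ℕ) : ℝ) ≤ (2 * (b : ℝ) + 1) * (N : ℝ) := by
    have h4 : (((b * N + 1 - -(b * N)).toNat : ℤ) : ℝ) ≤ (((2 * b + 1) * N : ℤ) : ℝ) := by
      rw [Int.cast_le, Int.toNat_of_nonneg (by linarith)]
      nlinarith
    calc (((b * N + 1 - -(b * N)).toNat : ℕ) : ℝ)
        = (((b * N + 1 - -(b * N)).toNat : ℤ) : ℝ) := by norm_cast
      _ ≤ (((2 * b + 1) * N : ℤ) : ℝ) := h4
      _ = (2 * (b : ℝ) + 1) * (N : ℝ) := by push_cast; ring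
  calc ((GD.prt d (b * N)).card : ℝ)
      ≤ ((Fintype.piFinset fun _ : Fin d => Icc (-(b * N)) (b * N)).card : ℝ) := by
        exact_mod_cast h1
    _ = (((b * N + 1 - -(b * N)).toNat : ℕ) : ℝ) ^ d := by rw [h2]; push_cast; rfl
    _ ≤ ((2 * (b : ℝ) + 1) * (N : ℝ)) ^ d := pow_le_pow_left₀ (Nat.cast_nonneg _) h3 d
    _ = (2 * (b : ℝ) + 1) ^ d * (N : ℝ) ^ d := mul_pow _ _ _

private theorem card_prt {b : ℤ} (hb : 3 ≤ b) {N : ℕ} (hN : 1 ≤ N) :
    ((prt d F (b * N)).card : ℝ) ≤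
      Fintype.card F * ((2 * (b : ℝ) + 1) ^ d * (N : ℝ) ^ d) := by
  unfold prt
  rw [card_product, card_univ]
  push_cast
  rw [mul_comm]
  exact mul_le_mul_of_nonneg_left (card_gprt hb hN) (Nat.cast_nonneg _)

theorem abs_nbs_le (f : St d F → ℝ) (x : St d F) {K : ℝ} (hK : 0 ≤ K)
    (h : ∀ y, adj x y → |f y| ≤ K) : |nbs f x| ≤ dn d F * K := by
  have h1 := norm_nbs_le f x hK fun y hy => by rw [Real.norm_eq_abs]; exact h y hy
  rwa [Real.norm_eq_abs] at h1

private theorem adj_one {m : ℤ} (hm : 3 ≤ m) {o : F} {y : St d F} (h : adj (ce d o) y) :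
    y ∈ inn d m o := by
  rw [mem_inn]
  refine ⟨fun h1 => adj_irrefl (h1 ▸ h), fun j => ?_⟩
  rcases h with ⟨⟨i, h⟩, -⟩ | ⟨h, -⟩
  · rcases h with h | h
    · rw [h]
      by_cases hj : j = i
      · subst hj
        rw [GD.sh_same]
        show |(1 : Fin d → ℤ) j + 1| < m
        rw [Pi.one_apply, abs_lt]
        omega
      · rw [GD.sh_ne _ hj]
        show |(1 : Fin d → ℤ) j| < m
        rw [Pi.one_apply, abs_lt]
        omega
    · rw [h]
      by_cases hj : j = i
      · subst hj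
        rw [GD.sh_same]
        show |(1 : Fin d → ℤ) j + -1| < m
        rw [Pi.one_apply, abs_lt]
        omega
      · rw [GD.sh_ne _ hj]
        show |(1 : Fin d → ℤ) j| < m
        rw [Pi.one_apply, abs_lt]
        omega
  · rw [← h]
    show |(1 : Fin d → ℤ) j| < m
    rw [Pi.one_apply, abs_lt]
    omega

theorem adj_coord {x y : St d F} (h : adj x y) (i : Fin d) : |x.1 i| - 1 ≤ |y.1 i| := by
  rcases h with ⟨⟨j, h⟩, -⟩ | ⟨h, -⟩
  · rcases h with h | h
    · rw [h]
      by_cases hj : i = j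
      · subst hj
        rw [GD.sh_same]
        have := abs_sub_abs_le_abs_sub (x.1 i) (x.1 i + 1)
        rw [show x.1 i - (x.1 i + 1) = -1 by ring, abs_neg, abs_one] at this
        linarith
      · rw [GD.sh_ne _ hj]
        linarith
    · rw [h]
      by_cases hj : i = j
      · subst hj
        rw [GD.sh_same]
        have := abs_sub_abs_le_abs_sub (x.1 i) (x.1 i + -1)
        rw [show x.1 i - (x.1 i + -1) = 1 by ring, abs_one] at this
        linarith
      · rw [GD.sh_ne _ hj]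
        linarith
  · rw [← h]
    linarith

/-- the gadget with a given profile -/
private theorem gadget_one (hd : 1 ≤ d) {b : ℤ} {z v ρ CM : ℝ} (hb : 3 ≤ b) (hz : 0 < z)
    (hz1 : z < 1) (hρ0 : 0 < ρ) (o : F) (P : Prof d F b z)
    (hVp : ∀ x : St d F, x.1 ∈ GD.cl d b → |Vp P.p x - v| < ρ / 4) (hCM : 0 < CM)
    (hCE : CellEst b o P.p CM) :
    ∃ C : ℝ, 1 ≤ C ∧
      ∀ (N : ℕ), 1 ≤ N → ∃ Vs : St d F → ℝ, (∀ x, |Vs x - v| ≤ ρ / 2) ∧
        ∀ W : St d F → ℝ,
          (∀ x ∈ inn d (b * N) o, |W x - Vs x| ≤ Real.exp (-(C * (N : ℝ) ^ (d + 1)))) →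
          (KM (b * N) o W).det ≠ 0 ∧
          (∀ x y, |KI (b * N) o W x y| ≤ Real.exp (C * (N : ℝ) ^ (d + 1))) ∧
          |ze0 (b * N) o W - v| ≤ ρ ∧
          z ^ (2 * N) / C ≤ ∑ x ∈ prt d F (b * N), ph0 (b * N) o W x ^ 2 ∧
          ∑ x ∈ prt d F (b * N), ph0 (b * N) o W x ^ 2 ≤ C * (N : ℝ) ^ d * z ^ (2 * N) := by
  haveI : Nonempty F := ⟨o⟩
  have hD : (1 : ℝ) ≤ (d : ℝ) := by exact_mod_cast hd
  have hD0 : (0 : ℝ) < (d : ℝ) := by linarith
  have hdn1 : 1 ≤ dn d F := one_le_dn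
  have hdn0 : 0 < dn d F := dn_pos
  obtain ⟨C₁, hC1, hreal⟩ := real_nodes hd hb hz hz1 P o hCM hCE (v - ρ / 4) (v + ρ / 4) (by linarith)
  obtain ⟨pM, hpM1, hpM, hup⟩ := ww_upper hb hz hz1 P
  have hb0 : (0 : ℝ) < b := by exact_mod_cast (by linarith : (0 : ℤ) < b)
  have hp11 : P.p (ce d o) ≠ 0 := P.ne (x := ce d o) (one_mem_cl hb)
  set q : ℝ := |P.p (ce d o)| with hq
  have hq0 : 0 < q := abs_pos.2 hp11
  set θ : ℝ := min 1 (min (ρ * q / (2 * dn d F)) (q / 2)) with hθ
  have hθ0 : 0 < θ := by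
    rw [hθ]
    refine lt_min one_pos (lt_min ?_ ?_) <;> positivity
  have hθ1 : θ ≤ 1 := min_le_left _ _
  have hθ2 : θ ≤ ρ * q / (2 * dn d F) := (min_le_right _ _).trans (min_le_left _ _)
  have hθ3 : θ ≤ q / 2 := (min_le_right _ _).trans (min_le_right _ _)
  have hθ4 : dn d F * θ ≤ q * (ρ / 2) := by
    rw [le_div_iff₀ (by positivity)] at hθ2
    linarith
  set lam : ℝ := Real.log (pM / θ) with hlam
  have hlam0 : 0 ≤ lam := by
    apply Real.log_nonneg
    rw [le_div_iff₀ hθ0]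
    linarith
  set mu : ℝ := -Real.log z with hmu
  have hmu0 : 0 ≤ mu := by
    have := Real.log_neg hz hz1
    rw [hmu]; linarith
  set A0 : ℝ := 2 * pM / (q * z) with hA0d
  have hA00 : 0 ≤ A0 := by rw [hA0d]; positivity
  set A : ℝ := dn d F * A0 with hA
  have hA0 : 0 ≤ A := by rw [hA]; positivity
  set K : ℝ := 2 * (Fintype.card F * (2 * (b : ℝ)) ^ d) with hK
  have hK0 : 0 ≤ K := by rw [hK]; positivity
  set L : ℝ := Fintype.card F * (2 * (b : ℝ) + 1) ^ d * A ^ 2 with hL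
  have hL0 : 0 ≤ L := by rw [hL]; positivity
  refine ⟨C₁ + K + lam + mu + 4 + L, by linarith, ?_⟩
  set C : ℝ := C₁ + K + lam + mu + 4 + L with hC
  intro N hN
  obtain ⟨Vs, hVs1, hVs2, hdet, hinv⟩ := hreal N hN
  have hNr : (1 : ℝ) ≤ N := by exact_mod_cast hN
  set T : ℝ := (N : ℝ) ^ (d + 1) with hT
  have hN3 : (N : ℝ) ≤ T := by
    rw [hT]
    calc (N : ℝ) = (N : ℝ) ^ 1 := (pow_one _).symm
      _ ≤ (N : ℝ) ^ (d + 1) := pow_le_pow_right₀ hNr (by omega)
  have hN3' : (1 : ℝ) ≤ T := one_le_pow₀ hNr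
  have hN23 : (N : ℝ) ^ d ≤ T := pow_le_pow_right₀ hNr (by omega)
  have hT0 : 0 ≤ T := by linarith
  have hVe : ∀ x, ¬ node b x → |Ve b P.p x - v| < ρ / 4 := fun x hx => hVp _ (rr_mem hb hx)
  refine ⟨Vs, ?_, ?_⟩
  · intro x
    by_cases hx : node b x
    · rcases hVs2 x hx with h | h
      · rw [h, show v - ρ / 4 - v = -(ρ / 4) by ring, abs_neg, abs_of_pos (by linarith)]
        linarith
      · rw [h, show v + ρ / 4 - v = ρ / 4 by ring, abs_of_pos (by linarith)]
        linarith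
    · rw [hVs1 x hx]
      linarith [hVe x hx]
  intro W hW
  have hNi : (1 : ℤ) ≤ N := by exact_mod_cast hN
  have hm3 : (3 : ℤ) ≤ b * N := by nlinarith
  set n : ℝ := ((inn d (b * N) o).card : ℝ) with hn
  have hn0 : 0 ≤ n := by rw [hn]; positivity
  have hnb : n ≤ (Fintype.card F * (2 * (b : ℝ)) ^ d) * (N : ℝ) ^ d := by
    have := card_inn_le (d := d) (m := b * N) (by linarith) o
    rw [mul_assoc, ← mul_pow]
    refine this.trans (le_of_eq ?_)
    push_cast
    ring
  have hBpos : 0 < Real.exp (C₁ * T) := Real.exp_pos _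
  have h8 : 2 * n ≤ Real.exp (K * T) := by
    have h9 : 2 * n ≤ K * T := by
      have : (Fintype.card F * (2 * (b : ℝ)) ^ d) * (N : ℝ) ^ d ≤
          (Fintype.card F * (2 * (b : ℝ)) ^ d) * T :=
        mul_le_mul_of_nonneg_left hN23 (by positivity)
      rw [hK]
      linarith
    linarith [Real.add_one_le_exp (K * T)]
  have hexp1 : Real.exp (K * T) * Real.exp (C₁ * T) *
      Real.exp (-(C * T)) ≤ Real.exp (-((lam + mu) * T)) := by
    rw [← Real.exp_add, ← Real.exp_add]
    apply Real.exp_le_exp.2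
    rw [hC]
    nlinarith [mul_nonneg (by linarith : (0 : ℝ) ≤ 4 + L) hT0]
  have hnBδ : n * Real.exp (C₁ * T) * Real.exp (-(C * T)) ≤
      Real.exp (-((lam + mu) * T)) / 2 := by
    have h9 : 2 * n * Real.exp (C₁ * T) * Real.exp (-(C * T)) ≤
        Real.exp (K * T) * Real.exp (C₁ * T) * Real.exp (-(C * T)) := by gcongr
    linarith
  have hsmall : Real.exp (-((lam + mu) * T)) ≤ θ / pM * z ^ N := by
    have h9 : Real.exp (-lam) = θ / pM := by
      rw [hlam, Real.exp_neg, Real.exp_log (by positivity), inv_div]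
    have h10 : Real.exp (-(mu * N)) = z ^ N := by
      rw [hmu, show -(-Real.log z * N) = N * Real.log z by ring, Real.exp_nat_mul,
        Real.exp_log hz]
    rw [← h9, ← h10, ← Real.exp_add]
    apply Real.exp_le_exp.2
    nlinarith [mul_le_mul_of_nonneg_left hN3 hmu0, mul_le_mul_of_nonneg_left hN3' hlam0]
  have hs : n * Real.exp (C₁ * T) * Real.exp (-(C * T)) ≤ 1 / 2 := by
    have : Real.exp (-((lam + mu) * T)) ≤ 1 := by
      apply Real.exp_le_one_iff.2
      have : 0 ≤ (lam + mu) * T := by positivity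
      linarith
    linarith
  obtain ⟨hd1, hd2, hd3⟩ := win hb hz P o pM hpM N hN Vs hVs1 (Real.exp (C₁ * T))
    (Real.exp (-(C * T))) hBpos.le (Real.exp_pos _).le hdet hinv hs W hW
  have hpM0 : 0 < pM := by linarith
  have heps : 2 * n * Real.exp (C₁ * T) * (Real.exp (-(C * T)) * pM) ≤ θ * z ^ N := by
    have h9 : 2 * n * Real.exp (C₁ * T) * (Real.exp (-(C * T)) * pM) =
        2 * (n * Real.exp (C₁ * T) * Real.exp (-(C * T))) * pM := by ring
    rw [h9]
    calc 2 * (n * Real.exp (C₁ * T) * Real.exp (-(C * T))) * pM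
        ≤ 2 * ((θ / pM * z ^ N) / 2) * pM := by
          gcongr
          exact hnBδ.trans (by linarith)
      _ = θ * z ^ N := by field_simp
  have hww1 : ww b z P.p (ce d o) = P.p (ce d o) := ww_centre hb P o
  -- the basic estimate
  have hSV : ∀ x ∈ inn d (b * N) o, |P.p (ce d o) * SV (b * N) o W x - ww b z P.p x| ≤ θ * z ^ N := by
    intro x hx
    have := hd3 x hx
    rw [hww1] at this
    exact this.trans heps
  have hzN : z ^ N ≤ 1 := pow_le_one₀ hz.le hz1.le
  have hzN0 : 0 < z ^ N := pow_pos hz N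
  refine ⟨hd1, ?_, ?_, ?_, ?_⟩
  · intro x y
    refine (hd2 x y).trans ?_
    calc 2 * n * Real.exp (C₁ * T)
        ≤ Real.exp (K * T) * Real.exp (C₁ * T) := by gcongr
      _ = Real.exp ((K + C₁) * T) := by
          rw [← Real.exp_add]; ring_nf
      _ ≤ Real.exp (C * T) := by
          apply Real.exp_le_exp.2
          apply mul_le_mul_of_nonneg_right _ hT0
          rw [hC]
          linarith
  · -- the resonant value
    have hnb4 : ze0 (b * N) o W = nbs (SV (b * N) o W) (ce d o) := by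
      unfold ze0
      rw [sum2d]
      exact nbs_congr fun y hy => if_pos (adj_one hm3 hy)
    have hno : ¬ node b (ce d o) := one_node (d := d) hb o
    have hcell := ww_cell hb hz P hno
    rw [hww1] at hcell
    have h5 : |P.p (ce d o) * ze0 (b * N) o W - Ve b P.p (ce d o) * P.p (ce d o)| ≤
        dn d F * (θ * z ^ N) := by
      rw [hnb4, hcell, ← nbs_mul, ← nbs_sub]
      exact abs_nbs_le _ _ (by positivity) fun y hy => hSV y (adj_one hm3 hy)
    have h6 : |ze0 (b * N) o W - Ve b P.p (ce d o)| ≤ ρ / 2 := by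
      have h7 : P.p (ce d o) * ze0 (b * N) o W - Ve b P.p (ce d o) * P.p (ce d o) =
          P.p (ce d o) * (ze0 (b * N) o W - Ve b P.p (ce d o)) := by ring
      rw [h7, abs_mul, ← hq] at h5
      have h8 : q * |ze0 (b * N) o W - Ve b P.p (ce d o)| ≤ q * (ρ / 2) := by
        calc q * |ze0 (b * N) o W - Ve b P.p (ce d o)| ≤ dn d F * (θ * z ^ N) := h5
          _ ≤ dn d F * (θ * 1) := by gcongr
          _ ≤ q * (ρ / 2) := by linarith
      exact le_of_mul_le_mul_left h8 hq0
    have h7 := hVe (ce d o) hno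
    have h8 : ze0 (b * N) o W - v = (ze0 (b * N) o W - Ve b P.p (ce d o)) + (Ve b P.p (ce d o) - v) := by
      ring
    rw [h8]
    refine (abs_add_le _ _).trans ?_
    linarith
  · -- lower bound of the coupling
    have hd' : 0 < d := hd
    set i0 : Fin d := ⟨0, hd'⟩ with hi0
    set x0 : Fin d → ℤ := Function.update 1 i0 (b * N) with hx0d
    set y0 : Fin d → ℤ := Function.update 1 i0 (b * N - 1) with hy0d
    have hx0y0 : GD.sh x0 i0 (-1) = y0 := by
      rw [hx0d, hy0d]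
      unfold GD.sh
      rw [Function.update_idem, Function.update_self]
      rfl
    have hx0i : x0 i0 = b * N := by rw [hx0d]; simp
    have hx0j : ∀ j, j ≠ i0 → x0 j = 1 := by
      intro j hj
      rw [hx0d, Function.update_of_ne hj, Pi.one_apply]
    have hy0i : y0 i0 = b * N - 1 := by rw [hy0d]; simp
    have hy0j : ∀ j, j ≠ i0 → y0 j = 1 := by
      intro j hj
      rw [hy0d, Function.update_of_ne hj, Pi.one_apply]
    have hx0 : ((x0, o) : St d F) ∈ prt d F (b * N) := by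
      rw [mem_prt]
      refine ⟨fun j => ?_, fun h => ?_⟩
      · show -(b * (N : ℤ)) ≤ x0 j ∧ x0 j ≤ b * N
        by_cases hj : j = i0
        · rw [hj, hx0i]; omega
        · rw [hx0j j hj]; omega
      · have h' := GD.mem_qi.1 h i0
        have h'' : |x0 i0| < b * N := h'
        rw [hx0i, abs_lt] at h''
        omega
    have m2 : ((y0, o) : St d F) ∈ inn d (b * N) o := by
      rw [mem_inn]
      refine ⟨fun h => ?_, fun j => ?_⟩
      · have h' : y0 i0 = 1 := congrFun (congrArg Prod.fst h) i0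
        rw [hy0i] at h'
        omega
      · show |y0 j| < b * N
        by_cases hj : j = i0
        · rw [hj, hy0i, abs_lt]; omega
        · rw [hy0j j hj, abs_lt]; omega
    have hout : ∀ y : St d F, b * N ≤ y.1 i0 → y ∉ inn d (b * N) o := by
      intro y hy h
      have := (mem_inn.1 h).2 i0
      rw [abs_lt] at this
      omega
    have hph : ph0 (b * N) o W (x0, o) = -SV (b * N) o W (y0, o) := by
      unfold ph0
      congr 1
      rw [Finset.sum_eq_single ((y0, o) : St d F)]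
      · rw [if_pos]
        refine Or.inl ⟨⟨i0, Or.inr ?_⟩, rfl⟩
        exact hx0y0.symm
      · intro y hy hne
        rw [if_neg]
        intro ha
        rcases ha with ⟨⟨j, ha⟩, ha2⟩ | ⟨ha, -⟩
        · have ha' : y.1 = GD.sh x0 j 1 ∨ y.1 = GD.sh x0 j (-1) := ha
          have ha2' : o = y.2 := ha2
          by_cases hj : j = i0
          · rcases ha' with h | h
            · refine hout y ?_ hy
              rw [h, hj, GD.sh_same, hx0i]
              omega
            · apply hne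
              refine Prod.ext ?_ ha2'.symm
              show y.1 = y0
              rw [h, hj, hx0y0]
          · have hj' : i0 ≠ j := fun h => hj h.symm
            refine hout y ?_ hy
            rcases ha' with h | h
            · rw [h, GD.sh_ne _ hj', hx0i]
            · rw [h, GD.sh_ne _ hj', hx0i]
        · have ha' : x0 = y.1 := ha
          refine hout y ?_ hy
          rw [← ha', hx0i]
      · intro h
        exact absurd m2 h
    have e1 := hSV _ m2
    have e2 := ww_port hb hz P N hN i0 o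
    rw [← hq, ← hy0d] at e2
    have h5 : z ^ N / 2 ≤ |SV (b * N) o W (y0, o)| := by
      have h6 : |ww b z P.p (y0, o)| ≤ |P.p (ce d o) * SV (b * N) o W (y0, o)| + θ * z ^ N := by
        have : ww b z P.p (y0, o) = P.p (ce d o) * SV (b * N) o W (y0, o) -
            (P.p (ce d o) * SV (b * N) o W (y0, o) - ww b z P.p (y0, o)) := by ring
        rw [this]
        refine (abs_sub _ _).trans ?_
        linarith
      rw [e2, abs_mul, ← hq] at h6
      have h7 : θ * z ^ N ≤ q / 2 * z ^ N := by gcongr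
      have h8 : q * (z ^ N / 2) ≤ q * |SV (b * N) o W (y0, o)| := by linarith
      exact le_of_mul_le_mul_left h8 hq0
    have h6 : z ^ (2 * N) / 4 ≤ ph0 (b * N) o W (x0, o) ^ 2 := by
      rw [hph, neg_sq, ← sq_abs (SV (b * N) o W (y0, o))]
      calc z ^ (2 * N) / 4 = (z ^ N / 2) ^ 2 := by rw [div_pow, ← pow_mul, mul_comm N 2]; norm_num
        _ ≤ _ := pow_le_pow_left₀ (by positivity) h5 2
    have h7 : ph0 (b * N) o W (x0, o) ^ 2 ≤ ∑ x ∈ prt d F (b * N), ph0 (b * N) o W x ^ 2 :=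
      Finset.single_le_sum (f := fun x => ph0 (b * N) o W x ^ 2) (fun x _ => sq_nonneg _) hx0
    refine le_trans ?_ (h6.trans h7)
    have hC4 : 4 ≤ C := by
      rw [hC]
      linarith
    exact div_le_div_of_nonneg_left (by positivity) (by norm_num) hC4
  · -- upper bound of the coupling
    have hAbd : ∀ y ∈ inn d (b * N) o, (∃ i, b * N - 1 ≤ |y.1 i|) →
        |SV (b * N) o W y| ≤ A0 * z ^ N := by
      intro y hy hy2
      have e1 := hSV y hy
      have e2 := hup N hN y hy2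
      have hzz : z ^ N = z * z ^ (N - 1) := by
        rw [← pow_succ', Nat.sub_add_cancel hN]
      have hzp : 0 < z ^ (N - 1) := pow_pos hz _
      have h6 : |P.p (ce d o) * SV (b * N) o W y| ≤ 2 * pM * z ^ (N - 1) := by
        have : P.p (ce d o) * SV (b * N) o W y =
            (P.p (ce d o) * SV (b * N) o W y - ww b z P.p y) + ww b z P.p y := by ring
        rw [this]
        refine (abs_add_le _ _).trans ?_
        have h7 : θ * z ^ N ≤ pM * z ^ (N - 1) := by
          rw [hzz]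
          have : θ * z ≤ pM := by nlinarith
          nlinarith
        linarith
      rw [abs_mul, ← hq] at h6
      have h8 : q * |SV (b * N) o W y| ≤ q * (A0 * z ^ N) := by
        refine h6.trans (le_of_eq ?_)
        rw [hA0d, hzz]
        field_simp
      exact le_of_mul_le_mul_left h8 hq0
    have hph : ∀ x ∈ prt d F (b * N), ph0 (b * N) o W x ^ 2 ≤ A ^ 2 * z ^ (2 * N) := by
      intro x hx
      have hx' := (mem_prt.1 hx).2
      rw [GD.mem_qi] at hx'
      push Not at hx'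
      obtain ⟨i, hi⟩ := hx'
      have habs : |ph0 (b * N) o W x| ≤ A * z ^ N := by
        unfold ph0
        rw [abs_neg, sum2d]
        refine (abs_nbs_le _ _ (K := A0 * z ^ N) (by positivity) fun y hy => ?_).trans
          (le_of_eq ?_)
        · split_ifs with hy2
          · exact hAbd y hy2 ⟨i, by linarith [adj_coord hy i]⟩
          · rw [abs_zero]
            positivity
        · rw [hA]; ring
      calc ph0 (b * N) o W x ^ 2 = |ph0 (b * N) o W x| ^ 2 := (sq_abs _).symm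
        _ ≤ (A * z ^ N) ^ 2 := pow_le_pow_left₀ (abs_nonneg _) habs 2
        _ = A ^ 2 * z ^ (2 * N) := by rw [mul_pow, ← pow_mul, mul_comm N 2]
    calc ∑ x ∈ prt d F (b * N), ph0 (b * N) o W x ^ 2
        ≤ ∑ _x ∈ prt d F (b * N), A ^ 2 * z ^ (2 * N) := Finset.sum_le_sum hph
      _ = ((prt d F (b * N)).card : ℝ) * (A ^ 2 * z ^ (2 * N)) := by
          rw [Finset.sum_const, nsmul_eq_mul]
      _ ≤ (Fintype.card F * ((2 * (b : ℝ) + 1) ^ d * (N : ℝ) ^ d)) *
            (A ^ 2 * z ^ (2 * N)) := by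
          gcongr
          exact card_prt hb hN
      _ = L * (N : ℝ) ^ d * z ^ (2 * N) := by rw [hL]; ring
      _ ≤ C * (N : ℝ) ^ d * z ^ (2 * N) := by
          gcongr
          rw [hC]
          linarith

/-- **The gadget.** -/
theorem gadget (hd : 1 ≤ d) {φ : F → ℝ} {lam : ℝ} (hφ : Mode F φ lam)
    {c kap Es v : ℝ} (hv1 : -(2 * (d : ℝ)) < v - lam) (hv2 : v - lam < 2 * (d : ℝ))
    (hvc : |Es - 2 * d - kap + v| < c) :
    ∃ (b : ℤ) (z ρ r δ0 C : ℝ), 3 ≤ b ∧ 0 < z ∧ z < 1 ∧ 0 < ρ ∧ 0 < r ∧ 0 < δ0 ∧ 1 ≤ C ∧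
      (∀ E : ℝ, |E - Es| < δ0 → |E - 2 * d - kap + v| + ρ + 6 * r ≤ c) ∧
      ∀ (o : F) (N : ℕ), 1 ≤ N → ∃ Vs : St d F → ℝ, (∀ x, |Vs x - v| ≤ ρ / 2) ∧
        ∀ W : St d F → ℝ,
          (∀ x ∈ inn d (b * N) o, |W x - Vs x| ≤ Real.exp (-(C * (N : ℝ) ^ (d + 1)))) →
          (KM (b * N) o W).det ≠ 0 ∧
          (∀ x y, |KI (b * N) o W x y| ≤ Real.exp (C * (N : ℝ) ^ (d + 1))) ∧
          |ze0 (b * N) o W - v| ≤ ρ ∧
          z ^ (2 * N) / C ≤ ∑ x ∈ prt d F (b * N), ph0 (b * N) o W x ^ 2 ∧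
          ∑ x ∈ prt d F (b * N), ph0 (b * N) o W x ^ 2 ≤ C * (N : ℝ) ^ d * z ^ (2 * N) := by
  classical
  set e : ℝ := c - |Es - 2 * d - kap + v| with he
  have he0 : 0 < e := by rw [he]; linarith
  set ρ : ℝ := e / 16 with hρ
  have hρ0 : 0 < ρ := by rw [hρ]; linarith
  obtain ⟨b, z, hb, hz, hz1, hP⟩ := exists_prof hd hφ v hv1 hv2 (ρ / 4) (by linarith)
  choose P CM hVp hCM hCE using hP
  choose C hC1 hC using fun o : F => gadget_one hd hb hz hz1 hρ0 o (P o) (hVp o) (hCM o) (hCE o)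
  have hC0 : ∀ o, 0 ≤ C o := fun o => by linarith [hC1 o]
  set CC : ℝ := 1 + ∑ o, C o with hCC
  have hCC1 : 1 ≤ CC := by
    have := Finset.sum_nonneg fun o (_ : o ∈ (univ : Finset F)) => hC0 o
    linarith
  have hCCo : ∀ o, C o ≤ CC := by
    intro o
    have := Finset.single_le_sum (f := C) (fun g _ => hC0 g) (mem_univ o)
    linarith
  refine ⟨b, z, ρ, e / 32, e / 16, CC, hb, hz, hz1, hρ0, by linarith, by linarith, hCC1, ?_, ?_⟩
  · intro E hE
    have h3 : |E - 2 * d - kap + v| ≤ |E - Es| + |Es - 2 * d - kap + v| := by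
      have : E - 2 * d - kap + v = (E - Es) + (Es - 2 * d - kap + v) := by ring
      rw [this]
      exact abs_add_le _ _
    rw [hρ]
    linarith
  · intro o N hN
    obtain ⟨Vs, h1, h2⟩ := hC o N hN
    refine ⟨Vs, h1, fun W hW => ?_⟩
    have hNr : (1 : ℝ) ≤ N := by exact_mod_cast hN
    have hT0 : (0 : ℝ) ≤ (N : ℝ) ^ (d + 1) := by positivity
    have hCN : C o * (N : ℝ) ^ (d + 1) ≤ CC * (N : ℝ) ^ (d + 1) :=
      mul_le_mul_of_nonneg_right (hCCo o) hT0
    obtain ⟨g1, g2, g3, g4, g5⟩ := h2 W fun x hx => (hW x hx).trans (by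
      apply Real.exp_le_exp.2
      linarith)
    refine ⟨g1, fun x y => (g2 x y).trans (Real.exp_le_exp.2 hCN), g3, le_trans ?_ g4,
      g5.trans ?_⟩
    · exact div_le_div_of_nonneg_left (by positivity) (by linarith [hC1 o]) (hCCo o)
    · have : 0 ≤ (N : ℝ) ^ d * z ^ (2 * N) := by positivity
      rw [mul_assoc, mul_assoc]
      exact mul_le_mul_of_nonneg_right (hCCo o) this

end Pool.Agent.Lib.MP_562b47_mp.SX
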