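import Pool.Agent.Lib.MP_562b47_mp.SX.Prof
import Pool.Agent.Lib.MP_562b47_mp.GD.SolB

/-!
MP_562b47, slabs: the exact solution (row by row from `GD`).
-/

open Finset

set_option linter.unusedSectionVars false

namespace Pool.Agent.Lib.MP_562b47_mp.SX

variable {d : ℕ} {F : Type} [Fintype F] [DecidableEq F] [Thin F] {b : ℤ} {z : ℝ}

/-- shift in a long direction -/
def shf (x : St d F) (i : Fin d) (t : ℤ) : St d F := (GD.sh x.1 i t, x.2)

theorem rr_mem (hb : 3 ≤ b) {x : St d F} (hx : ¬ node b x) : (rr b x).1 ∈ GD.cl d b :=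
  GD.rr_mem hb hx

theorem ww_row (P : Prof d F b z) (x : St d F) :
    ww b z P.p x = GD.ww b z (P.row x.2).p x.1 := rfl

theorem ww_node (hb : 3 ≤ b) (P : Prof d F b z) {x : St d F} (hx : node b x) :
    ww b z P.p x = 0 := GD.ww_node hb (P.row x.2) hx

theorem ww_ne (hb : 3 ≤ b) (hz : 0 < z) (P : Prof d F b z) {x : St d F} (hx : ¬ node b x) :
    ww b z P.p x ≠ 0 := GD.ww_ne hb hz (P.row x.2) hx

theorem ww_cell (hb : 3 ≤ b) (hz : 0 < z) (P : Prof d F b z) {x : St d F} (hx : ¬ node b x) :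
    Ve b P.p x * ww b z P.p x = nbs (ww b z P.p) x := by
  have hm : GD.rr b x.1 ∈ GD.cl d b := GD.rr_mem hb hx
  have hne : P.p (GD.rr b x.1, x.2) ≠ 0 := P.ne (x := (GD.rr b x.1, x.2)) hm
  obtain ⟨e, he⟩ : ∃ e : ℝ, e = (∏ i, (((x.1 i).sign : ℤ) : ℝ)) * (-z) ^ GD.lv b x.1 := ⟨_, rfl⟩
  have hw : ∀ g, ww b z P.p (x.1, g) = e * P.p (GD.rr b x.1, g) := by
    intro g
    rw [he]
    rfl
  have h1 : GD.nbs (fun y => ww b z P.p (y, x.2)) x.1 =
      e * GD.nbs (fun y => P.p (y, x.2)) (GD.rr b x.1) := by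
    have h2 := GD.ww_cell hb hz (P.row x.2) (x := x.1) hx
    have h3 : GD.nbs (fun y => ww b z P.p (y, x.2)) x.1 =
        GD.nbs (GD.ww b z (P.row x.2).p) x.1 := rfl
    have h4 : GD.ww b z (P.row x.2).p x.1 = e * P.p (GD.rr b x.1, x.2) := hw x.2
    rw [h3, ← h2, h4]
    unfold GD.Ve GD.Vp
    have h5 : (P.row x.2).p (GD.rr b x.1) = P.p (GD.rr b x.1, x.2) := rfl
    have h6 : GD.nbs (P.row x.2).p (GD.rr b x.1) =
        GD.nbs (fun y => P.p (y, x.2)) (GD.rr b x.1) := rfl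
    rw [h5, h6]
    field_simp
  have h2 : tb (fun g => ww b z P.p (x.1, g)) x.2 =
      e * tb (fun g => P.p (GD.rr b x.1, g)) x.2 := by
    unfold tb
    rw [Finset.mul_sum]
    refine Finset.sum_congr rfl fun g _ => ?_
    beta_reduce
    rw [hw g]
    split_ifs <;> simp
  have h3 : ww b z P.p x = e * P.p (GD.rr b x.1, x.2) := hw x.2
  have h4 : Ve b P.p x = (GD.nbs (fun y => P.p (y, x.2)) (GD.rr b x.1) +
      tb (fun g => P.p (GD.rr b x.1, g)) x.2) / P.p (GD.rr b x.1, x.2) := rfl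
  unfold nbs
  rw [h1, h2, h3, h4]
  field_simp

theorem ww_cross (hb : 3 ≤ b) (P : Prof d F b z) {x : St d F} {i : Fin d} (hx : b ∣ x.1 i) :
    ww b z P.p (shf x i 1) = - ww b z P.p (shf x i (-1)) :=
  GD.ww_cross hb (P.row x.2) (x := x.1) hx

theorem nbs_node (hb : 3 ≤ b) (P : Prof d F b z) {x : St d F} (hx : node b x) :
    nbs (ww b z P.p) x = 0 := by
  have h1 : GD.nbs (fun y => ww b z P.p (y, x.2)) x.1 = 0 :=
    GD.nbs_node hb (P.row x.2) (x := x.1) hx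
  have h2 : tb (fun g => ww b z P.p (x.1, g)) x.2 = 0 := by
    unfold tb
    refine Finset.sum_eq_zero fun g _ => ?_
    beta_reduce
    rw [ww_node hb P (x := (x.1, g)) hx, ite_self]
  unfold nbs
  rw [h1, h2, add_zero]

theorem ww_lower (hb : 3 ≤ b) (hz : 0 < z) (hz1 : z < 1) (P : Prof d F b z) :
    ∃ pm : ℝ, 0 < pm ∧ ∀ N : ℕ, 1 ≤ N → ∀ x : St d F, ¬ node b x →
      (∀ i, |x.1 i| < b * N) → pm * z ^ (d * N) ≤ |ww b z P.p x| := by
  choose pm h1 h2 using fun f : F => GD.ww_lower hb hz hz1 (P.row f)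
  rcases isEmpty_or_nonempty F with hF | hF
  · exact ⟨1, one_pos, fun N _ x => (hF.false x.2).elim⟩
  · obtain ⟨f0, hf0⟩ := Finite.exists_min pm
    refine ⟨pm f0, h1 f0, fun N hN x hx hxN => ?_⟩
    refine le_trans ?_ (h2 x.2 N hN x.1 hx hxN)
    exact mul_le_mul_of_nonneg_right (hf0 x.2) (pow_nonneg hz.le _)

theorem ww_upper (hb : 3 ≤ b) (hz : 0 < z) (hz1 : z < 1) (P : Prof d F b z) :
    ∃ pM : ℝ, 1 ≤ pM ∧ (∀ x, |ww b z P.p x| ≤ pM) ∧
      ∀ N : ℕ, 1 ≤ N → ∀ x : St d F, (∃ i, b * N - 1 ≤ |x.1 i|) →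
        |ww b z P.p x| ≤ pM * z ^ (N - 1) := by
  choose pM h1 h2 h3 using fun f : F => GD.ww_upper hb hz hz1 (P.row f)
  have h0 : ∀ f, 0 ≤ pM f := fun f => by linarith [h1 f]
  have h4 : ∀ f, pM f ≤ 1 + ∑ g, pM g := by
    intro f
    have := Finset.single_le_sum (f := pM) (fun g _ => h0 g) (mem_univ f)
    linarith
  refine ⟨1 + ∑ g, pM g, ?_, fun x => (h2 x.2 x.1).trans (h4 x.2), fun N hN x hx => ?_⟩
  · have := Finset.sum_nonneg fun g (_ : g ∈ (univ : Finset F)) => h0 g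
    linarith
  · refine (h3 x.2 N hN x.1 hx).trans ?_
    exact mul_le_mul_of_nonneg_right (h4 x.2) (pow_nonneg hz.le _)

theorem ww_port (hb : 3 ≤ b) (hz : 0 < z) (P : Prof d F b z) (N : ℕ) (hN : 1 ≤ N) (i : Fin d)
    (o : F) : |ww b z P.p (Function.update 1 i (b * N - 1), o)| = z ^ N * |P.p (ce d o)| :=
  GD.ww_port hb hz (P.row o) N hN i

theorem ww_centre (hb : 3 ≤ b) (P : Prof d F b z) (o : F) :
    ww b z P.p (ce d o) = P.p (ce d o) := GD.ww_centre hb (P.row o)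

theorem one_node (hb : 3 ≤ b) (f : F) : ¬ node (d := d) b ((1 : Fin d → ℤ), f) := by
  rintro ⟨i, h⟩
  have h1 : b ∣ 1 := h
  have := Int.le_of_dvd one_pos h1
  omega

end Pool.Agent.Lib.MP_562b47_mp.SX
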